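import Pool.Agent.VCM.Cnt.Defs
import Pool.Agent.VCM.Sys

/-! S15495, CNT6: the counting induction. -/

open FirstOrder FirstOrder.Language

namespace Pool.Agent.VCM.Cnt

variable {L : FirstOrder.Language.{0, 0}} {N : Type} [L.Structure N]

/-- reindexing of a system -/
theorem exists_comap {α β : Type} {p k : ℕ} (S : Sys L N α p k) (f : α → β) :
    ∃ S' : Sys L N β p k, ∀ v, S'.T v = S.T (fun i => v (f i)) := by
  refine ⟨⟨fun v => S.T (fun i => v (f i)), fun _ => S.fin _, fun _ => S.card _, ?_⟩,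
    fun _ => rfl⟩
  intro n η
  refine (Dfn.comp (S.dfn n η) (Sum.map f id)
    (fun v : β ⊕ (Fin n × Fin p) → N => fun i => v (Sum.map f id i)) fun _ _ => rfl).of_iff ?_
  intro v
  exact Iff.rfl

theorem ncard_biUnion_le {ι α : Type} (F : Finset ι) (f : ι → Set α) (n : ℕ)
    (h : ∀ i ∈ F, (f i).Finite ∧ (f i).ncard ≤ n) :
    (⋃ i ∈ F, f i).Finite ∧ (⋃ i ∈ F, f i).ncard ≤ F.card * n := by
  classical
  refine ⟨Set.Finite.biUnion F.finite_toSet fun i hi => (h i hi).1, ?_⟩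
  induction F using Finset.induction_on with
  | empty => simp
  | insert a F ha ih =>
    rw [Finset.set_biUnion_insert, Finset.card_insert_of_notMem ha]
    have h1 := Set.ncard_union_le (f a) (⋃ i ∈ F, f i)
    have h2 := ih fun i hi => h i (Finset.mem_insert_of_mem hi)
    have h3 := (h a (Finset.mem_insert_self _ _)).2
    calc _ ≤ (f a).ncard + (⋃ i ∈ F, f i).ncard := h1
      _ ≤ n + F.card * n := add_le_add h3 h2
      _ = (F.card + 1) * n := by ring

/-- `α ⊕ Fin (m+1) → (α ⊕ Fin m) ⊕ Unit` -/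
def fIdx {α : Type} {m : ℕ} : α ⊕ Fin (m + 1) → (α ⊕ Fin m) ⊕ Unit
  | Sum.inl a => Sum.inl (Sum.inl a)
  | Sum.inr i => Fin.lastCases (motive := fun _ => (α ⊕ Fin m) ⊕ Unit) (Sum.inr ())
      (fun j => Sum.inl (Sum.inr j)) i

theorem fIdx_ext {α : Type} {m : ℕ} (a : α → N) (x : Fin (m + 1) → N) :
    (fun i => ext (Sum.elim a (fun j : Fin m => x j.castSucc)) (x (Fin.last m)) (fIdx i)) =
      Sum.elim a x := by
  funext i
  rcases i with i | i
  · rfl
  · refine Fin.lastCases (motive := fun i => ext (Sum.elim a (fun j : Fin m => x j.castSucc))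
      (x (Fin.last m)) (fIdx (Sum.inr i)) = Sum.elim a x (Sum.inr i)) ?_ ?_ i
    · simp [fIdx, ext]
    · intro j
      simp [fIdx, ext]

/-- `(α ⊕ Fin m) ⊕ Fin p → (α ⊕ Fin p) ⊕ Fin m` -/
def gIdx {α : Type} {m p : ℕ} : (α ⊕ Fin m) ⊕ Fin p → (α ⊕ Fin p) ⊕ Fin m
  | Sum.inl (Sum.inl a) => Sum.inl (Sum.inl a)
  | Sum.inl (Sum.inr j) => Sum.inr j
  | Sum.inr i => Sum.inl (Sum.inr i)

theorem gIdx_elim {α : Type} {m p : ℕ} (a : α → N) (b : Fin p → N) (x : Fin m → N) :
    (fun i => Sum.elim (Sum.elim a b) x (gIdx i)) = Sum.elim (Sum.elim a x) b := by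
  funext i
  rcases i with (i | i) | i <;> rfl

theorem count [Nonempty N] {p : ℕ}
    (hstep : ∀ (α : Type) [Finite α] (k : ℕ) (S : Sys L N (α ⊕ Unit) p k), (∀ a, (S.T a).Nonempty) →
      ∃ (k' : ℕ) (S' : Sys L N (α ⊕ Fin p) p k'), (∀ a, (S'.T a).Nonempty) ∧
        ∀ (a : α → N) (x : N) (B : Finset (Fin p → N)), B.Nonempty →
          ∃ b₀ ∈ B, ∃ ρ ⊆ S'.T (Sum.elim a b₀), tr (S.T (ext a x)) B = tr ρ B)
    (m : ℕ) (α : Type) [Finite α] (k : ℕ) (S : Sys L N (α ⊕ Fin m) p k) (hne : ∀ a, (S.T a).Nonempty) :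
    ∃ C : ℕ, ∀ (a : α → N) (B : Finset (Fin p → N)),
      {T : Set (Set (Fin p → N)) | ∃ x : Fin m → N, T = tr (S.T (Sum.elim a x)) B}.Finite ∧
      {T : Set (Set (Fin p → N)) | ∃ x : Fin m → N, T = tr (S.T (Sum.elim a x)) B}.ncard ≤
        C * (B.card + 1) ^ m := by
  classical
  induction m generalizing α k with
  | zero =>
    refine ⟨1, fun a B => ?_⟩
    have hsub : {T : Set (Set (Fin p → N)) | ∃ x : Fin 0 → N, T = tr (S.T (Sum.elim a x)) B} ⊆
        {tr (S.T (Sum.elim a (fun i : Fin 0 => i.elim0))) B} := by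
      rintro T ⟨x, rfl⟩
      have : x = fun i : Fin 0 => i.elim0 := Subsingleton.elim _ _
      rw [this]
      exact Set.mem_singleton _
    refine ⟨(Set.finite_singleton _).subset hsub, ?_⟩
    have := Set.ncard_le_ncard hsub (Set.finite_singleton _)
    rw [Set.ncard_singleton] at this
    simp only [pow_zero, mul_one]
    exact this
  | succ m ih =>
    obtain ⟨S₁, hS₁⟩ := exists_comap S (fIdx (α := α) (m := m))
    have hne₁ : ∀ a, (S₁.T a).Nonempty := fun a => by rw [hS₁]; exact hne _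
    obtain ⟨k', S', hne', hS'⟩ := hstep (α ⊕ Fin m) k S₁ hne₁
    obtain ⟨S₂, hS₂⟩ := exists_comap S' (gIdx (α := α) (m := m) (p := p))
    have hne₂ : ∀ a, (S₂.T a).Nonempty := fun a => by rw [hS₂]; exact hne' _
    obtain ⟨C, hC⟩ := ih (α ⊕ Fin p) k' S₂ hne₂
    refine ⟨C * 2 ^ k' + 1, fun a B => ?_⟩
    rcases B.eq_empty_or_nonempty with hB | hB
    · subst hB
      have hsub : {T : Set (Set (Fin p → N)) | ∃ x : Fin (m + 1) → N,
          T = tr (S.T (Sum.elim a x)) ((∅ : Finset (Fin p → N)) : Set (Fin p → N))} ⊆ {{∅}} := by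
        rintro T ⟨x, rfl⟩
        rw [Set.mem_singleton_iff]
        ext w
        simp only [tr, Finset.coe_empty, Set.inter_empty, Set.mem_image, Set.mem_singleton_iff]
        obtain ⟨w', hw'⟩ := hne (Sum.elim a x)
        exact ⟨fun ⟨_, _, h⟩ => h.symm, fun h => ⟨w', hw', h.symm⟩⟩
      refine ⟨(Set.finite_singleton _).subset hsub, ?_⟩
      have := Set.ncard_le_ncard hsub (Set.finite_singleton _)
      rw [Set.ncard_singleton] at this
      simp only [Finset.card_empty, zero_add, one_pow, mul_one]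
      omega
    · -- the traces of the new system
      set 𝒯 : (Fin p → N) → Set (Set (Set (Fin p → N))) := fun b₀ =>
        {T | ∃ x : Fin m → N, T = tr (S₂.T (Sum.elim (Sum.elim a b₀) x)) B} with h𝒯
      have hfin : ∀ b₀, (𝒯 b₀).Finite := fun b₀ => (hC (Sum.elim a b₀) B).1
      have hcard : ∀ b₀, (𝒯 b₀).ncard ≤ C * (B.card + 1) ^ m := fun b₀ => (hC (Sum.elim a b₀) B).2
      have hU : ∀ b₀, ∀ U ∈ 𝒯 b₀, (𝒫 U).Finite ∧ (𝒫 U).ncard ≤ 2 ^ k' := by
        rintro b₀ U ⟨x, rfl⟩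
        have h1 : (S₂.T (Sum.elim (Sum.elim a b₀) x)).Finite := S₂.fin _
        have h2 : (tr (S₂.T (Sum.elim (Sum.elim a b₀) x)) (B : Set (Fin p → N))).Finite :=
          h1.image _
        refine ⟨h2.finite_subsets, ?_⟩
        rw [Set.ncard_powerset _ h2]
        exact Nat.pow_le_pow_right (by norm_num)
          ((Set.ncard_image_le h1).trans (S₂.card _))
      have hin : ∀ b₀, (⋃ U ∈ (hfin b₀).toFinset, 𝒫 U).Finite ∧
          (⋃ U ∈ (hfin b₀).toFinset, 𝒫 U).ncard ≤ C * (B.card + 1) ^ m * 2 ^ k' := by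
        intro b₀
        have h1 := ncard_biUnion_le (hfin b₀).toFinset (fun U => 𝒫 U) (2 ^ k') (by
          intro U hU'
          exact hU b₀ U ((hfin b₀).mem_toFinset.mp hU'))
        refine ⟨h1.1, h1.2.trans (Nat.mul_le_mul_right _ ?_)⟩
        rw [← Set.ncard_eq_toFinset_card _ (hfin b₀)]
        exact hcard b₀
      have hout := ncard_biUnion_le B (fun b₀ => ⋃ U ∈ (hfin b₀).toFinset, 𝒫 U)
        (C * (B.card + 1) ^ m * 2 ^ k') fun b₀ _ => hin b₀
      have hsub : {T : Set (Set (Fin p → N)) | ∃ x : Fin (m + 1) → N,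
          T = tr (S.T (Sum.elim a x)) B} ⊆ ⋃ b₀ ∈ B, ⋃ U ∈ (hfin b₀).toFinset, 𝒫 U := by
        rintro T ⟨x, rfl⟩
        obtain ⟨b₀, hb₀, ρ, hρ, he⟩ := hS' (Sum.elim a (fun j : Fin m => x j.castSucc))
          (x (Fin.last m)) B hB
        rw [hS₁, fIdx_ext] at he
        rw [he]
        simp only [Set.mem_iUnion]
        refine ⟨b₀, hb₀, tr (S₂.T (Sum.elim (Sum.elim a b₀) (fun j : Fin m => x j.castSucc))) B,
          (hfin b₀).mem_toFinset.mpr ⟨_, rfl⟩, ?_⟩
        rw [hS₂, gIdx_elim]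
        exact Set.image_mono hρ
      refine ⟨hout.1.subset hsub, ?_⟩
      have h1 := Set.ncard_le_ncard hsub hout.1
      refine (h1.trans hout.2).trans ?_
      have h2 : B.card * (C * (B.card + 1) ^ m * 2 ^ k') ≤
          (B.card + 1) * (C * (B.card + 1) ^ m * 2 ^ k') :=
        Nat.mul_le_mul_right _ (Nat.le_succ _)
      refine h2.trans ?_
      rw [pow_succ]
      nlinarith [Nat.zero_le ((B.card + 1) ^ m * (B.card + 1))]

end Pool.Agent.VCM.Cnt
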