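import Pool.Agent.VCM.Cnt.StepC
import Pool.Agent.VCM.Cnt.Count
import Pool.Agent.VCM.OUni

/-! S15495, section 6: the new system, and the final counting theorem. -/

open FirstOrder FirstOrder.Language

namespace Pool.Agent.VCM.Cnt

variable {L : FirstOrder.Language.{0, 0}} {N : Type} [L.Structure N]

/-- the family with the whole line added -/
def addU {α : Type} {p : ℕ} (B : BFam L N α p) : BFam L N α p where
  ι := Option B.ι
  fin := by have := B.fin; infer_instance
  δ := fun i => i.elim ⊤ B.δ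
  R := fun i => i.elim (fun _ => True) B.R
  dfn := fun i => by
    cases i with
    | none => exact Dfn.true'
    | some i => exact B.dfn i

theorem addU_E [Nonempty N] {α : Type} {p : ℕ} (B : BFam L N α p) (a : α → N) (b : Fin p → N) :
    (addU B).E a b = insert Set.univ (B.E a b) := by
  ext D
  rw [Set.mem_insert_iff]
  constructor
  · rintro ⟨i, w, h1, h2⟩
    cases i with
    | none => exact Or.inl (h2.trans (VC.fib_top w))
    | some i => exact Or.inr ⟨i, w, h1, h2⟩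
  · rintro (rfl | ⟨i, w, h1, h2⟩)
    · exact ⟨none, fun _ => Classical.arbitrary N, trivial, (VC.fib_top _).symm⟩
    · exact ⟨some i, w, h1, h2⟩

variable [Nonempty N] {α : Type} {p k : ℕ}

theorem range_tuple {P : Type} (S : Finset P) (hS : S.Nonempty) {n : ℕ} (hn : S.card ≤ n) :
    ∃ s : Fin n → P, Set.range s = (S : Set P) := by
  classical
  obtain ⟨x₀, hx₀⟩ := hS
  refine ⟨fun i => if h : (i : ℕ) < S.card then (S.equivFin.symm ⟨i, h⟩ : P) else x₀, ?_⟩
  ext x
  constructor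
  · rintro ⟨i, rfl⟩
    beta_reduce
    split_ifs with h
    · exact (S.equivFin.symm ⟨i, h⟩).2
    · exact hx₀
  · intro hx
    have h1 := (S.equivFin ⟨x, hx⟩).2
    refine ⟨⟨S.equivFin ⟨x, hx⟩, h1.trans_le hn⟩, ?_⟩
    beta_reduce
    rw [dif_pos h1]
    simp

/-- the data at `a` -/
def mkData (S : Sys L N (α ⊕ Unit) p k) (hne : ∀ a, (S.T a).Nonempty) (B : BFam L N α p) (K : ℕ)
    (h1 : ∀ a b, (B.E a b).Finite ∧ (B.E a b).ncard ≤ K ∧ ∀ D ∈ B.E a b, D.Nonempty)
    (h2 : ∀ a b b', ∀ D ∈ B.E a b, ∀ D' ∈ B.E a b', D ⊆ D' ∨ D' ⊆ D ∨ Disjoint D D')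
    (h3 : ∀ a (b : Fin (2 * k) → Fin p → N) x y, (∀ j, ∀ D ∈ B.E a (b j), (x ∈ D ↔ y ∈ D)) →
      S.pat (ext a x) b = S.pat (ext a y) b) (a : α → N) : Data N (Fin p → N) where
  k := k
  K := K + 1
  τ x := S.T (ext a x)
  E b := (addU B).E a b
  τne x := hne _
  τfin x := S.fin _
  τcard x := S.card _
  Efin b := by rw [addU_E]; exact (h1 a b).1.insert _
  Ecard b := by
    rw [addU_E]
    exact (Set.ncard_insert_le _ _).trans (Nat.succ_le_succ (h1 a b).2.1)
  Ene b D hD := by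
    rw [addU_E] at hD
    rcases hD with rfl | hD
    · exact Set.univ_nonempty
    · exact (h1 a b).2.2 D hD
  Euniv b := by rw [addU_E]; exact Set.mem_insert _ _
  lam b b' D hD D' hD' := by
    rw [addU_E] at hD hD'
    rcases hD with rfl | hD
    · exact Or.inr (Or.inl (Set.subset_univ _))
    · rcases hD' with rfl | hD'
      · exact Or.inl (Set.subset_univ _)
      · exact h2 a b b' D hD D' hD'
  own S' hS' x y hxy := by
    rcases S'.eq_empty_or_nonempty with rfl | hne'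
    · have key : ∀ T : Set (Set (Fin p → N)), T.Nonempty → tr T ((∅ : Finset (Fin p → N)) : Set _) = {∅} := by
        intro T hT
        ext v
        constructor
        · rintro ⟨w, -, rfl⟩
          simp
        · intro hv
          obtain ⟨w, hw⟩ := hT
          exact ⟨w, hw, by simpa using hv.symm⟩
      rw [key _ (hne _), key _ (hne _)]
    · obtain ⟨s, hs⟩ := range_tuple S' hne' hS'
      rw [← hs, tr_range_iff]
      refine h3 a s x y fun j D hD => hxy (s j) ?_ D ?_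
      · rw [← Finset.mem_coe, ← hs]; exact ⟨j, rfl⟩
      · rw [addU_E]; exact Set.mem_insert_of_mem _ hD

theorem step (S : Sys L N (α ⊕ Unit) p k) (hne : ∀ a, (S.T a).Nonempty)
    (O : ∃ (B : BFam L N α p) (K : ℕ),
      (∀ a b, (B.E a b).Finite ∧ (B.E a b).ncard ≤ K ∧ ∀ D ∈ B.E a b, D.Nonempty) ∧
      (∀ a b b', ∀ D ∈ B.E a b, ∀ D' ∈ B.E a b', D ⊆ D' ∨ D' ⊆ D ∨ Disjoint D D') ∧
      ∀ a (b : Fin (2 * k) → Fin p → N) x y, (∀ j, ∀ D ∈ B.E a (b j), (x ∈ D ↔ y ∈ D)) →
        S.pat (ext a x) b = S.pat (ext a y) b) :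
    ∃ (k' : ℕ) (S' : Sys L N (α ⊕ Fin p) p k'), (∀ a, (S'.T a).Nonempty) ∧
      ∀ (a : α → N) (x : N) (B : Finset (Fin p → N)), B.Nonempty →
        ∃ b₀ ∈ B, ∃ ρ ⊆ S'.T (Sum.elim a b₀), tr (S.T (ext a x)) B = tr ρ B := by
  obtain ⟨B, K, h1, h2, h3⟩ := O
  let F : Fam S (addU B) (K + 1) :=
    { d := mkData S hne B K h1 h2 h3
      hE := fun _ _ => rfl
      hτ := fun _ _ => rfl
      hk := fun _ => rfl
      hK := fun _ => rfl }
  have hq : ∀ a, (F.d a).q = 2 * k * (K + 1) := F.q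
  refine ⟨1 + (K + 1) * (2 * k * (K + 1) * ((2 * k * (K + 1)) ^ (2 * k * (K + 1)) * k) +
    (2 * k * (K + 1)) ^ (2 * k * (K + 1)) * k) + 1,
    { T := fun v => (F.d (fun i => v (Sum.inl i))).T' (fun i => v (Sum.inr i))
      fin := fun v => ((F.d (fun i => v (Sum.inl i))).T'_card (fun i => v (Sum.inr i))).1
      card := fun v => ((F.d (fun i => v (Sum.inl i))).T'_card (fun i => v (Sum.inr i))).2
      dfn := fun n η => F.dT' n η }, fun v => ⟨∅, Or.inl rfl⟩, fun a x B' hB' => ?_⟩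
  obtain ⟨b₀, hb₀, ρ, hρ, h⟩ := (F.d a).main B' hB' x
  exact ⟨b₀, hb₀, ρ, hρ, h⟩

/-- a system with `∅` added to all its values -/
def addE {β : Type} (S : Sys L N β p k) : Sys L N β p (k + 1) where
  T a := insert ∅ (S.T a)
  fin a := (S.fin a).insert _
  card a := (Set.ncard_insert_le _ _).trans (Nat.succ_le_succ (S.card a))
  dfn n η := by
    refine ((Dfn.const (∀ j, ¬ η j)).or (S.dfn n η)).of_iff fun v => ?_
    constructor
    · rintro (h | ⟨w, hw, h⟩)
      · exact ⟨∅, Set.mem_insert _ _, fun j => by simp [h j]⟩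
      · exact ⟨w, Set.mem_insert_of_mem _ hw, h⟩
    · rintro ⟨w, hw, h⟩
      rcases hw with rfl | hw
      · exact Or.inl fun j => by simpa using h j
      · exact Or.inr ⟨w, hw, h⟩

end Pool.Agent.VCM.Cnt

namespace Pool.Agent.VCM

open Cnt

variable {L : FirstOrder.Language.{0, 0}} {N : Type} [L.Structure N]

theorem VC.count {V : VC L N} [Nonempty N] {p : ℕ}
    (hO : ∀ (α : Type) [Finite α] (k : ℕ) (S : Sys L N (α ⊕ Unit) p k) (n : ℕ), 0 < n → V.OConc S n)
    (d : ℕ) {β : Type} [Finite β] {k : ℕ} (S : Sys L N (Fin d ⊕ β) p k) :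
    ∃ C : ℕ, ∀ (e : β → N) (B : Finset (Fin p → N)),
      {t : Set (Set (Fin p → N)) | ∃ x : Fin d → N, t = (fun w => w ∩ ↑B) '' S.T (Sum.elim x e)}.ncard
        ≤ C * (B.card + 1) ^ d := by
  classical
  obtain ⟨S₁, hS₁⟩ := exists_comap (addE S) (Sum.swap : Fin d ⊕ β → β ⊕ Fin d)
  have hne : ∀ a, (S₁.T a).Nonempty := fun a => by
    rw [hS₁]; exact ⟨∅, Set.mem_insert _ _⟩
  obtain ⟨C, hC⟩ := Cnt.count (L := L) (N := N) (p := p) (fun α _ k S hne => by
    have hk : 0 < k := by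
      have h1 := S.card (fun _ => Classical.arbitrary N)
      have h2 : 0 < (S.T (fun _ => Classical.arbitrary N)).ncard :=
        (Set.ncard_pos (S.fin _)).2 (hne _)
      omega
    refine Cnt.step S hne ?_
    obtain ⟨B, K, h1, h2⟩ := hO α k S (2 * k) (by omega)
    refine ⟨B, K, fun a b => ⟨(h1 a b).1, (h1 a b).2.1, fun D hD => ((h1 a b).2.2 D hD).nonempty⟩,
      fun a b b' D hD D' hD' => ((h1 a b).2.2 D hD).lam ((h1 a b').2.2 D' hD'), h2⟩) d β (k + 1) S₁ hne
  refine ⟨2 * C, fun e B => ?_⟩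
  obtain ⟨h1, h2⟩ := hC e B
  set A := {T : Set (Set (Fin p → N)) | ∃ x : Fin d → N, T = Cnt.tr (S₁.T (Sum.elim e x)) B} with hA
  have hsub : {t : Set (Set (Fin p → N)) | ∃ x : Fin d → N, t = (fun w => w ∩ ↑B) '' S.T (Sum.elim x e)} ⊆
      A ∪ (fun T => T \ {∅}) '' A := by
    rintro _ ⟨x, rfl⟩
    have e1 : S₁.T (Sum.elim e x) = insert ∅ (S.T (Sum.elim x e)) := by
      rw [hS₁]
      show insert ∅ (S.T _) = _
      congr 2
      funext i
      rcases i with i | i <;> rfl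
    have e2 : Cnt.tr (S₁.T (Sum.elim e x)) B = insert ∅ ((fun w => w ∩ (B : Set (Fin p → N))) '' S.T (Sum.elim x e)) := by
      rw [e1]
      unfold Cnt.tr
      rw [Set.image_insert_eq, Set.empty_inter]
    by_cases hm : ∅ ∈ (fun w => w ∩ (B : Set (Fin p → N))) '' S.T (Sum.elim x e)
    · left
      refine ⟨x, ?_⟩
      rw [e2, Set.insert_eq_of_mem hm]
    · right
      refine ⟨_, ⟨x, rfl⟩, ?_⟩
      show Cnt.tr (S₁.T (Sum.elim e x)) B \ {∅} = _
      rw [e2, Set.insert_sdiff_of_mem _ (Set.mem_singleton _)]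
      exact Set.sdiff_singleton_eq_self hm
  refine (Set.ncard_le_ncard hsub (h1.union (h1.image _))).trans ?_
  refine (Set.ncard_union_le _ _).trans ?_
  have h3 := Set.ncard_image_le (f := fun T : Set (Set (Fin p → N)) => T \ {∅}) h1
  calc A.ncard + ((fun T => T \ {∅}) '' A).ncard ≤ A.ncard + A.ncard := by omega
    _ ≤ C * (B.card + 1) ^ d + C * (B.card + 1) ^ d := Nat.add_le_add h2 h2
    _ = 2 * C * (B.card + 1) ^ d := by ring

end Pool.Agent.VCM
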