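import Pool.Agent.VCM.Cnt.Defs

/-! S15495, section 6, CNT2: children. -/

namespace Pool.Agent.VCM.Cnt

variable {X P : Type}

namespace Data

variable {d : Data X P}

theorem DD_ne {D : Set X} (hD : D ∈ d.DD) : D.Nonempty := by
  obtain ⟨b, hb⟩ := hD
  exact d.Ene b D hb

theorem DD_lam {D D' : Set X} (hD : D ∈ d.DD) (hD' : D' ∈ d.DD) : D ⊆ D' ∨ D' ⊆ D ∨ Disjoint D D' := by
  obtain ⟨b, hb⟩ := hD
  obtain ⟨b', hb'⟩ := hD'
  exact d.lam b b' D hb D' hb'

/-- if `C` is thin then it is the union of at most `q` proper subsets in `DD` -/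
theorem thin_cover {C : Set X} (hT : ¬ d.Thick C) :
    ∃ F : Finset (Set X), F.card ≤ d.q ∧ (∀ D ∈ F, D ∈ d.DD ∧ D ⊂ C) ∧ C ⊆ ⋃ D ∈ F, D := by
  classical
  unfold Thick at hT
  push Not at hT
  obtain ⟨S, hS, hne⟩ := hT
  refine ⟨S.biUnion (fun b => ((d.Efin b).toFinset).filter (fun D => D ⊂ C)), ?_, ?_, ?_⟩
  · calc (S.biUnion (fun b => ((d.Efin b).toFinset).filter (fun D => D ⊂ C))).card
        ≤ ∑ b ∈ S, (((d.Efin b).toFinset).filter (fun D => D ⊂ C)).card := Finset.card_biUnion_le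
      _ ≤ ∑ b ∈ S, d.K := by
          apply Finset.sum_le_sum
          intro b _
          refine (Finset.card_filter_le _ _).trans ?_
          rw [← Set.ncard_eq_toFinset_card (d.E b) (d.Efin b)]
          exact d.Ecard b
      _ = S.card * d.K := by simp
      _ ≤ d.q := by
          unfold q
          exact Nat.mul_le_mul_right _ hS
  · intro D hD
    simp only [Finset.mem_biUnion, Finset.mem_filter, Set.Finite.mem_toFinset] at hD
    obtain ⟨b, _, hDb, hDC⟩ := hD
    exact ⟨⟨b, hDb⟩, hDC⟩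
  · intro x hx
    have hx' : x ∉ d.al S C := by
      rw [hne]; exact Set.notMem_empty x
    simp only [al, Set.mem_ofPred_eq, not_and, not_forall, not_not] at hx'
    obtain ⟨b, hb, D, hD, hDC, hxD⟩ := hx' hx
    simp only [Set.mem_iUnion, Finset.mem_biUnion, Finset.mem_filter, Set.Finite.mem_toFinset]
    exact ⟨D, ⟨b, hb, hD, hDC⟩, hxD⟩

/-- (F1) the proper subsets of a thin `C` in `DD` are contained in children -/
theorem exists_child {C D : Set X} (hT : ¬ d.Thick C) (hD : D ∈ d.DD) (hDC : D ⊂ C) :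
    ∃ D', d.Child C D' ∧ D ⊆ D' := by
  classical
  obtain ⟨F, -, hF, hcov⟩ := thin_cover hT
  set G : Set (Set X) := {D' | D' ∈ d.DD ∧ D ⊆ D' ∧ D' ⊂ C} with hG
  set G' : Set (Set X) := G ∩ ((fun s : Finset (Set X) => ⋃ E ∈ s, E) '' (F.powerset : Set (Finset (Set X))))
    with hG'
  have hfin : G'.Finite := Set.Finite.inter_of_right ((Finset.finite_toSet _).image _) _
  have key : ∀ D' ∈ G, ∃ M ∈ G', D' ⊆ M := by
    intro D' hD'
    by_cases h : ∃ E ∈ F, D' ⊆ E
    · obtain ⟨E, hE, hDE⟩ := h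
      refine ⟨E, ⟨⟨(hF E hE).1, hD'.2.1.trans hDE, (hF E hE).2⟩, {E}, ?_, by simp⟩, hDE⟩
      simpa using hE
    · push Not at h
      refine ⟨D', ⟨hD', F.filter (fun E => E ⊆ D'),
        Finset.mem_coe.mpr (Finset.mem_powerset.mpr (Finset.filter_subset _ _)), ?_⟩, subset_rfl⟩
      apply Set.Subset.antisymm
      · intro x hx
        simp only [Set.mem_iUnion, Finset.mem_filter] at hx
        obtain ⟨E, ⟨_, hE⟩, hxE⟩ := hx
        exact hE hxE
      · intro x hx
        have := hcov (hD'.2.2.1 hx)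
        simp only [Set.mem_iUnion] at this
        obtain ⟨E, hE, hxE⟩ := this
        simp only [Set.mem_iUnion, Finset.mem_filter]
        refine ⟨E, ⟨hE, ?_⟩, hxE⟩
        rcases DD_lam (hF E hE).1 hD'.1 with h1 | h1 | h1
        · exact h1
        · exact absurd h1 (h E hE)
        · exact absurd hx (Set.disjoint_left.mp h1 hxE)
  obtain ⟨M0, hM0, hDM0⟩ := key D ⟨hD, subset_rfl, hDC⟩
  obtain ⟨M, hM0M, hM⟩ := hfin.exists_le_maximal hM0
  refine ⟨M, ⟨hM.prop.1.1, hM.prop.1.2.2, ?_⟩, hM.prop.1.2.1⟩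
  intro D' hD' hD'C hMD'
  obtain ⟨M1, hM1, hD'M1⟩ := key D' ⟨hD', hM.prop.1.2.1.trans hMD', hD'C⟩
  have := hM.le_of_ge hM1 (hMD'.trans hD'M1)
  exact Set.Subset.antisymm (hD'M1.trans this) hMD'

/-- (F2) -/
theorem child_disj {C D D' : Set X} (h : d.Child C D) (h' : d.Child C D') :
    D = D' ∨ Disjoint D D' := by
  rcases DD_lam h.1 h'.1 with h1 | h1 | h1
  · exact Or.inl (h.2.2 D' h'.1 h'.2.1 h1).symm
  · exact Or.inl (h'.2.2 D h.1 h.2.1 h1)
  · exact Or.inr h1

/-- (F4) -/
theorem child_cover {C : Set X} (hT : ¬ d.Thick C) {x : X} (hx : x ∈ C) :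
    ∃ D, d.Child C D ∧ x ∈ D := by
  obtain ⟨F, -, hF, hcov⟩ := thin_cover hT
  have := hcov hx
  simp only [Set.mem_iUnion] at this
  obtain ⟨E, hE, hxE⟩ := this
  obtain ⟨D, hD, hED⟩ := exists_child hT (hF E hE).1 (hF E hE).2
  exact ⟨D, hD, hED hxE⟩

/-- (F5) -/
theorem child_fin {C : Set X} (hT : ¬ d.Thick C) :
    {D | d.Child C D}.Finite ∧ {D | d.Child C D}.ncard ≤ d.q := by
  classical
  obtain ⟨F, hFc, hF, hcov⟩ := thin_cover hT
  have hch : ∀ E : Set X, ∃ D, E ∈ F → d.Child C D ∧ E ⊆ D := by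
    intro E
    by_cases hE : E ∈ F
    · obtain ⟨D, hD⟩ := exists_child hT (hF E hE).1 (hF E hE).2
      exact ⟨D, fun _ => hD⟩
    · exact ⟨∅, fun h => absurd h hE⟩
  choose f hf using hch
  have hsub : {D | d.Child C D} ⊆ ((F.image f : Finset (Set X)) : Set (Set X)) := by
    intro D hD
    obtain ⟨x, hx⟩ := DD_ne hD.1
    have := hcov (hD.2.1.1 hx)
    simp only [Set.mem_iUnion] at this
    obtain ⟨E, hE, hxE⟩ := this
    have h2 := hf E hE
    rcases child_disj hD h2.1 with h3 | h3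
    · simp only [Finset.coe_image, Set.mem_image]
      exact ⟨E, hE, h3.symm⟩
    · exact absurd (h2.2 hxE) (Set.disjoint_left.mp h3 hx)
  refine ⟨(Finset.finite_toSet _).subset hsub, ?_⟩
  calc {D | d.Child C D}.ncard ≤ ((F.image f : Finset (Set X)) : Set (Set X)).ncard :=
        Set.ncard_le_ncard hsub (Finset.finite_toSet _)
    _ = (F.image f).card := Set.ncard_coe_finset _
    _ ≤ F.card := Finset.card_image_le
    _ ≤ d.q := hFc

theorem nodes_DD {C : Set X} (hC : C ∈ d.DD) {j : ℕ} {D : Set X} (hD : D ∈ d.nodes C j) :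
    D ∈ d.DD ∧ D ⊆ C := by
  induction j generalizing D with
  | zero =>
    have : D = C := hD
    subst this
    exact ⟨hC, subset_rfl⟩
  | succ j ih =>
    obtain ⟨D', hD', -, hch⟩ := hD
    exact ⟨hch.1, hch.2.1.1.trans (ih hD').2⟩

theorem nodes_fin {C : Set X} (j : ℕ) : (d.nodes C j).Finite ∧ (d.nodes C j).ncard ≤ d.q ^ j := by
  classical
  induction j with
  | zero =>
    constructor
    · exact Set.finite_singleton C
    · simp [nodes]
  | succ j ih =>
    have hch : ∀ D' : Set X, ∃ F : Finset (Set X), F.card ≤ d.q ∧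
        (¬ d.Thick D' → {D | d.Child D' D} ⊆ (F : Set (Set X))) := by
      intro D'
      by_cases h : d.Thick D'
      · exact ⟨∅, by simp, fun h' => absurd h h'⟩
      · obtain ⟨h1, h2⟩ := child_fin h
        refine ⟨h1.toFinset, ?_, fun _ => by simp⟩
        rw [← Set.ncard_eq_toFinset_card _ h1]
        exact h2
    choose f hf1 hf2 using hch
    have hsub : d.nodes C (j + 1) ⊆ ((ih.1.toFinset.biUnion f : Finset (Set X)) : Set (Set X)) := by
      intro D hD
      obtain ⟨D', hD', hT, hch⟩ := hD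
      simp only [Finset.coe_biUnion, Set.mem_iUnion]
      exact ⟨D', by simpa using hD', hf2 D' hT hch⟩
    refine ⟨(Finset.finite_toSet _).subset hsub, ?_⟩
    calc (d.nodes C (j + 1)).ncard ≤ ((ih.1.toFinset.biUnion f : Finset (Set X)) : Set (Set X)).ncard :=
          Set.ncard_le_ncard hsub (Finset.finite_toSet _)
      _ = (ih.1.toFinset.biUnion f).card := Set.ncard_coe_finset _
      _ ≤ ∑ D' ∈ ih.1.toFinset, (f D').card := Finset.card_biUnion_le
      _ ≤ ∑ D' ∈ ih.1.toFinset, d.q := Finset.sum_le_sum (fun D' _ => hf1 D')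
      _ = ih.1.toFinset.card * d.q := by simp
      _ ≤ d.q ^ j * d.q := by
          apply Nat.mul_le_mul_right
          rw [← Set.ncard_eq_toFinset_card _ ih.1]
          exact ih.2
      _ = d.q ^ (j + 1) := (pow_succ _ _).symm

theorem nodes_sub {C : Set X} {j : ℕ} {D : Set X} (hD : D ∈ d.nodes C j) : D ⊆ C := by
  induction j generalizing D with
  | zero =>
    have : D = C := hD
    exact this.subset
  | succ j ih =>
    obtain ⟨D', hD', -, hch⟩ := hD
    exact hch.2.1.1.trans (ih hD')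

theorem nodes_ssub {C : Set X} {j : ℕ} (hj : 1 ≤ j) {D : Set X} (hD : D ∈ d.nodes C j) : D ⊂ C := by
  obtain ⟨i, rfl⟩ : ∃ i, j = i + 1 := ⟨j - 1, by omega⟩
  obtain ⟨D', hD', -, hch⟩ := hD
  exact hch.2.1.trans_subset (nodes_sub hD')

/-- two nodes of the same depth are equal or disjoint -/
theorem nodes_disj {C : Set X} {j : ℕ} {D D' : Set X} (h : D ∈ d.nodes C j) (h' : D' ∈ d.nodes C j) :
    D = D' ∨ Disjoint D D' := by
  induction j generalizing D D' with
  | zero =>
    have h1 : D = C := h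
    have h2 : D' = C := h'
    exact Or.inl (h1.trans h2.symm)
  | succ j ih =>
    obtain ⟨E, hE, -, hch⟩ := h
    obtain ⟨E', hE', -, hch'⟩ := h'
    rcases ih hE hE' with h1 | h1
    · subst h1
      exact child_disj hch hch'
    · exact Or.inr (h1.mono hch.2.1.1 hch'.2.1.1)

/-- the path to a node -/
theorem nodes_path {C : Set X} {j : ℕ} {D : Set X} (h : D ∈ d.nodes C j) :
    ∃ p : ℕ → Set X, p 0 = C ∧ p j = D ∧ (∀ i ≤ j, p i ∈ d.nodes C i) ∧
      ∀ i < j, ¬ d.Thick (p i) ∧ d.Child (p i) (p (i + 1)) := by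
  induction j generalizing D with
  | zero =>
    have h1 : D = C := h
    refine ⟨fun _ => C, rfl, h1.symm, ?_, by simp⟩
    intro i hi
    obtain rfl : i = 0 := by omega
    exact rfl
  | succ j ih =>
    obtain ⟨E, hE, hT, hch⟩ := h
    obtain ⟨p, hp0, hpj, hp1, hp2⟩ := ih hE
    refine ⟨fun i => if i ≤ j then p i else D, by simpa using hp0, by simp, ?_, ?_⟩
    · intro i hi
      by_cases h1 : i ≤ j
      · simp only [h1, if_true]
        exact hp1 i h1
      · obtain rfl : i = j + 1 := by omega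
        simp only [h1, if_false]
        exact ⟨E, hE, hT, hch⟩
    · intro i hi
      have h1 : i ≤ j := by omega
      by_cases h2 : i + 1 ≤ j
      · simp only [h1, h2, if_true]
        exact hp2 i (by omega)
      · obtain rfl : i = j := by omega
        simp only [le_refl, if_true, h2, if_false]
        rw [hpj]
        exact ⟨hT, hch⟩

/-- the path of a point -/
theorem path_of_mem {C : Set X} {x : X} (hx : x ∈ C) (j : ℕ) :
    (∃ i < j, ∃ D ∈ d.nodes C i, d.Thick D ∧ x ∈ D) ∨ (∃ D ∈ d.nodes C j, x ∈ D) := by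
  induction j with
  | zero => exact Or.inr ⟨C, rfl, hx⟩
  | succ j ih =>
    rcases ih with ⟨i, hi, h⟩ | ⟨D, hD, hxD⟩
    · exact Or.inl ⟨i, by omega, h⟩
    · by_cases hT : d.Thick D
      · exact Or.inl ⟨j, by omega, D, hD, hT, hxD⟩
      · obtain ⟨D', hD', hxD'⟩ := child_cover hT hxD
        exact Or.inr ⟨D', ⟨D, hD, hT, hD'⟩, hxD'⟩

end Data

end Pool.Agent.VCM.Cnt
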