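import Mathlib

/-! S15495, section 6 (counting): the pure combinatorial data. `X` is the line, `P` the set of
parameter points. -/

namespace Pool.Agent.VCM.Cnt

variable {X P : Type}

/-- the traces on `B` of a set of subsets of `P` -/
def tr (T : Set (Set P)) (B : Set P) : Set (Set P) := (fun w => w ∩ B) '' T

/-- the data of section 6.2 at fixed `(x'', e)` -/
structure Data (X P : Type) where
  k : ℕ
  K : ℕ
  τ : X → Set (Set P)
  E : P → Set (Set X)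
  τne : ∀ x, (τ x).Nonempty
  τfin : ∀ x, (τ x).Finite
  τcard : ∀ x, (τ x).ncard ≤ k
  Efin : ∀ b, (E b).Finite
  Ecard : ∀ b, (E b).ncard ≤ K
  Ene : ∀ b, ∀ D ∈ E b, D.Nonempty
  Euniv : ∀ b, Set.univ ∈ E b
  lam : ∀ b b', ∀ D ∈ E b, ∀ D' ∈ E b', D ⊆ D' ∨ D' ⊆ D ∨ Disjoint D D'
  /-- Theorem O for at most `2 k` points -/
  own : ∀ S : Finset P, S.card ≤ 2 * k → ∀ x y, (∀ b ∈ S, ∀ D ∈ E b, (x ∈ D ↔ y ∈ D)) →
    tr (τ x) S = tr (τ y) S

namespace Data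

variable (d : Data X P)

/-- the number of balls in the `E b`, `b` in a set of at most `2 k` points -/
def q : ℕ := 2 * d.k * d.K

/-- all the balls -/
def DD : Set (Set X) := {D | ∃ b, D ∈ d.E b}

/-- `C` minus the members of `E b`, `b ∈ S`, properly contained in `C` -/
def al (S : Set P) (C : Set X) : Set X := {x | x ∈ C ∧ ∀ b ∈ S, ∀ D ∈ d.E b, D ⊂ C → x ∉ D}

def Thick (C : Set X) : Prop := ∀ S : Finset P, S.card ≤ 2 * d.k → (d.al S C).Nonempty

/-- `D` is a maximal proper subset of `C` in `DD` -/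
def Child (C D : Set X) : Prop := D ∈ d.DD ∧ D ⊂ C ∧ ∀ D' ∈ d.DD, D' ⊂ C → D ⊆ D' → D' = D

/-- the nodes of depth `j` of the tree of `C` -/
def nodes (C : Set X) : ℕ → Set (Set X)
  | 0 => {C}
  | j + 1 => {D | ∃ D' ∈ nodes C j, ¬ d.Thick D' ∧ d.Child D' D}

/-- the points `b` such that no node strictly between `C` and `D` is in `E b` (`D` a node of depth `q`) -/
def Qs (C D : Set X) : Set P :=
  {b | ∀ i, 1 ≤ i → i < d.q → ∀ D' ∈ d.nodes C i, D ⊆ D' → D' ∉ d.E b}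

/-- the traces on `S` of the sets `τ x`, `x ∈ al S C` (if `C ∈ DD`, `S.card ≤ 2 k` they are all equal) -/
def nu (C : Set X) (S : Set P) : Set (Set P) := {v | ∃ x ∈ d.al S C, v ∈ tr (d.τ x) S}

/-- the `ω` of 6.2 -/
def om (C : Set X) (Q : Set P) : Set (Set P) :=
  {w | w ⊆ Q ∧ ∀ S : Finset P, ↑S ⊆ Q → S.card ≤ d.k → w ∩ S ∈ d.nu C S}

def Good (C : Set X) (Q : Set P) : Prop :=
  ∀ S : Finset P, ↑S ⊆ Q → S.card ≤ 2 * d.k → (d.al S C).Nonempty

/-- the new system -/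
def T' (b₀ : P) : Set (Set P) :=
  {w | w = ∅ ∨ ∃ C ∈ d.E b₀,
    (∃ j, j < d.q ∧ ∃ D ∈ d.nodes C j, d.Thick D ∧ w ∈ d.om D Set.univ) ∨
    (∃ D ∈ d.nodes C d.q, w ∈ d.om C (d.Qs C D))}

end Data

end Pool.Agent.VCM.Cnt
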