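import Pool.Agent.VCM.Cnt.Defs

/-! S15495, section 6, CNT1: 6.1. -/

namespace Pool.Agent.VCM.Cnt

variable {X P : Type}

theorem tr_sub_of_small {k : ℕ} {T T' : Set (Set P)} (hT' : T'.Finite)
    (hk' : T'.ncard ≤ k) {B : Set P}
    (h : ∀ S : Finset P, ↑S ⊆ B → S.card ≤ k → tr T S = tr T' S) : tr T B ⊆ tr T' B := by
  classical
  rintro v ⟨w, hw, rfl⟩
  by_contra hcon
  have h1 : ∀ w' : Set P, ∃ b, w' ∈ T' → b ∈ B ∧ ¬ (b ∈ w ↔ b ∈ w') := by
    intro w'
    by_cases hw' : w' ∈ T'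
    · by_contra hc
      push Not at hc
      apply hcon
      refine ⟨w', hw', ?_⟩
      ext b
      simp only [Set.mem_inter_iff]
      constructor
      · rintro ⟨h1, h2⟩
        exact ⟨((hc b).2 h2).mpr h1, h2⟩
      · rintro ⟨h1, h2⟩
        exact ⟨((hc b).2 h2).mp h1, h2⟩
    · rcases isEmpty_or_nonempty P with hP | ⟨⟨b⟩⟩
      · exfalso
        apply hcon
        have hne : (tr T' (∅ : Set P)).Nonempty := by
          have := h ∅ (by simp) (by simp)
          simp only [Finset.coe_empty] at this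
          rw [← this]
          exact ⟨_, w, hw, rfl⟩
        obtain ⟨_, w'', hw'', -⟩ := hne
        refine ⟨w'', hw'', ?_⟩
        ext b
        exact hP.elim b
      · exact ⟨b, fun h => absurd h hw'⟩
  choose f hf using h1
  set S : Finset P := hT'.toFinset.image f with hS
  have hSc : S.card ≤ k := by
    refine Finset.card_image_le.trans ?_
    rw [← Set.ncard_eq_toFinset_card _ hT']
    exact hk'
  have hSB : (S : Set P) ⊆ B := by
    intro b hb
    simp only [hS, Finset.coe_image, Set.Finite.coe_toFinset, Set.mem_image] at hb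
    obtain ⟨w', hw', rfl⟩ := hb
    exact (hf w' hw').1
  have h2 : w ∩ S ∈ tr T' S := by
    rw [← h S hSB hSc]
    exact ⟨w, hw, rfl⟩
  obtain ⟨w', hw', hww⟩ := h2
  have h3 := (hf w' hw').2
  have h4 : f w' ∈ (S : Set P) := by
    simp only [hS, Finset.coe_image, Set.Finite.coe_toFinset, Set.mem_image]
    exact ⟨w', hw', rfl⟩
  apply h3
  have h5 : f w' ∈ w' ∩ (S : Set P) ↔ f w' ∈ w ∩ (S : Set P) := by
    have : w' ∩ (S : Set P) = w ∩ S := hww
    rw [this]
  constructor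
  · intro h6
    exact (h5.mpr ⟨h6, h4⟩).1
  · intro h6
    exact (h5.mp ⟨h6, h4⟩).1

/-- 6.1 uniqueness -/
theorem tr_eq_of_small {k : ℕ} {T T' : Set (Set P)} (hT : T.Finite) (hT' : T'.Finite)
    (hk : T.ncard ≤ k) (hk' : T'.ncard ≤ k) {B : Set P}
    (h : ∀ S : Finset P, ↑S ⊆ B → S.card ≤ k → tr T S = tr T' S) : tr T B = tr T' B :=
  Set.Subset.antisymm (tr_sub_of_small hT' hk' h)
    (tr_sub_of_small hT hk (fun S h1 h2 => (h S h1 h2).symm))

/-- 6.1 existence -/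
theorem exists_ext {k : ℕ} {Q : Set P} (ν : Finset P → Set (Set P))
    (hfin : ∀ S : Finset P, ↑S ⊆ Q → S.card ≤ 2 * k → (ν S).Finite)
    (hcard : ∀ S : Finset P, ↑S ⊆ Q → S.card ≤ 2 * k → (ν S).ncard ≤ k)
    (hsub : ∀ S : Finset P, ↑S ⊆ Q → S.card ≤ 2 * k → ∀ v ∈ ν S, v ⊆ (S : Set P))
    (hne : ∀ S : Finset P, ↑S ⊆ Q → S.card ≤ 2 * k → (ν S).Nonempty)
    (coh : ∀ S S' : Finset P, S' ⊆ S → ↑S ⊆ Q → S.card ≤ 2 * k → ν S' = tr (ν S) S')
    {Ω : Set (Set P)}
    (hΩ : Ω = {w | w ⊆ Q ∧ ∀ S : Finset P, ↑S ⊆ Q → S.card ≤ k → w ∩ S ∈ ν S}) :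
    Ω.Finite ∧ Ω.ncard ≤ k ∧ ∀ S : Finset P, ↑S ⊆ Q → S.card ≤ k → tr Ω S = ν S := by
  classical
  -- the base set
  obtain ⟨S₀, hS₀Q, hS₀k, hS₀lt, hmax⟩ : ∃ S₀ : Finset P, ↑S₀ ⊆ Q ∧ S₀.card ≤ 2 * k ∧
      S₀.card < (ν S₀).ncard ∧ ∀ S' : Finset P, ↑S' ⊆ Q → S'.card ≤ 2 * k → S'.card < (ν S').ncard →
        (ν S').ncard ≤ (ν S₀).ncard := by
    set A : Set ℕ := {m | ∃ S : Finset P, ↑S ⊆ Q ∧ S.card ≤ 2 * k ∧ S.card < (ν S).ncard ∧
      (ν S).ncard = m} with hA
    have hAne : A.Nonempty := by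
      refine ⟨(ν ∅).ncard, ∅, by simp, by simp, ?_, rfl⟩
      rw [Finset.card_empty]
      exact (Set.ncard_pos (hfin ∅ (by simp) (by simp))).mpr (hne ∅ (by simp) (by simp))
    have hAb : BddAbove A := by
      refine ⟨k, ?_⟩
      rintro m ⟨S, h1, h2, h3, rfl⟩
      exact hcard S h1 h2
    obtain ⟨S, h1, h2, h3, h4⟩ := Nat.sSup_mem hAne hAb
    refine ⟨S, h1, h2, h3, ?_⟩
    intro S' h1' h2' h3'
    rw [h4]
    exact le_csSup hAb ⟨S', h1', h2', h3', rfl⟩
  have hS₀k' : S₀.card + 1 ≤ k := by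
    have := hcard S₀ hS₀Q hS₀k
    omega
  have hinsQ : ∀ b ∈ Q, ((insert b S₀ : Finset P) : Set P) ⊆ Q := by
    intro b hb
    rw [Finset.coe_insert]
    exact Set.insert_subset hb hS₀Q
  have hinsk : ∀ b, (insert b S₀).card ≤ k := fun b => (Finset.card_insert_le b S₀).trans hS₀k'
  -- restriction is injective
  have hinj : ∀ b ∈ Q, ∀ v ∈ ν (insert b S₀), ∀ v' ∈ ν (insert b S₀),
      v ∩ (S₀ : Set P) = v' ∩ (S₀ : Set P) → v = v' := by
    intro b hb
    have hk2 : (insert b S₀).card ≤ 2 * k := (hinsk b).trans (by omega)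
    have h1 := coh (insert b S₀) S₀ (Finset.subset_insert _ _) (hinsQ b hb) hk2
    have hf := hfin (insert b S₀) (hinsQ b hb) hk2
    have h2 : (ν (insert b S₀)).ncard ≤ (ν S₀).ncard := by
      by_contra hc
      push Not at hc
      have h3 : (insert b S₀).card < (ν (insert b S₀)).ncard := by
        have := Finset.card_insert_le b S₀
        omega
      exact absurd (hmax _ (hinsQ b hb) hk2 h3) (by omega)
    have h3 : ((fun w : Set P => w ∩ (S₀ : Set P)) '' ν (insert b S₀)).ncard = (ν (insert b S₀)).ncard := by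
      apply le_antisymm
      · exact Set.ncard_image_le hf
      · have : (fun w : Set P => w ∩ (S₀ : Set P)) '' ν (insert b S₀) = ν S₀ := h1.symm
        rw [this]
        exact h2
    have h4 := Set.injOn_of_ncard_image_eq h3 hf
    intro v hv v' hv' hvv
    exact h4 hv hv' hvv
  have hmem : ∀ w ∈ Ω, w ⊆ Q ∧ ∀ S : Finset P, ↑S ⊆ Q → S.card ≤ k → w ∩ S ∈ ν S := by
    intro w hw
    rw [hΩ] at hw
    exact hw
  -- existence
  have hex : ∀ S : Finset P, ↑S ⊆ Q → S.card ≤ k → ∀ u ∈ ν (S ∪ S₀), ∃ w ∈ Ω, w ∩ (S : Set P) = u ∩ S := by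
    intro S hSQ hSk u hu
    have hcup : ∀ S' : Finset P, ↑S' ⊆ Q → S'.card ≤ k →
        ((S' ∪ S₀ : Finset P) : Set P) ⊆ Q ∧ (S' ∪ S₀).card ≤ 2 * k := by
      intro S' h1 h2
      refine ⟨?_, ?_⟩
      · rw [Finset.coe_union]
        exact Set.union_subset h1 hS₀Q
      · have := Finset.card_union_le S' S₀
        omega
    set w : Set P := {b | b ∈ Q ∧ ∃ v ∈ ν (insert b S₀), v ∩ (S₀ : Set P) = u ∩ S₀ ∧ b ∈ v} with hw
    -- the traces of w
    have key : ∀ S' : Finset P, ↑S' ⊆ Q → S'.card ≤ k → ∀ u' ∈ ν (S' ∪ S₀),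
        u' ∩ (S₀ : Set P) = u ∩ S₀ → w ∩ (S' : Set P) = u' ∩ S' := by
      intro S' h1 h2 u' hu' huu
      obtain ⟨h3, h4⟩ := hcup S' h1 h2
      ext b
      simp only [Set.mem_inter_iff]
      constructor
      · rintro ⟨⟨hbQ, v, hv, hvu, hbv⟩, hbS⟩
        refine ⟨?_, hbS⟩
        have hins : insert b S₀ ⊆ S' ∪ S₀ := by
          apply Finset.insert_subset
          · exact Finset.mem_union_left _ hbS
          · exact Finset.subset_union_right
        have h5 : u' ∩ ((insert b S₀ : Finset P) : Set P) ∈ ν (insert b S₀) := by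
          rw [coh (S' ∪ S₀) (insert b S₀) hins h3 h4]
          exact ⟨u', hu', rfl⟩
        have h6 : v = u' ∩ ((insert b S₀ : Finset P) : Set P) := by
          apply hinj b hbQ v hv _ h5
          rw [hvu, ← huu, Set.inter_assoc]
          congr 1
          rw [Finset.coe_insert]
          exact (Set.inter_eq_right.mpr (Set.subset_insert _ _)).symm
        rw [h6] at hbv
        exact hbv.1
      · rintro ⟨hbu, hbS⟩
        refine ⟨⟨h1 hbS, ?_⟩, hbS⟩
        have hins : insert b S₀ ⊆ S' ∪ S₀ := by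
          apply Finset.insert_subset
          · exact Finset.mem_union_left _ hbS
          · exact Finset.subset_union_right
        refine ⟨u' ∩ ((insert b S₀ : Finset P) : Set P), ?_, ?_, ?_⟩
        · rw [coh (S' ∪ S₀) (insert b S₀) hins h3 h4]
          exact ⟨u', hu', rfl⟩
        · rw [← huu, Set.inter_assoc]
          congr 1
          rw [Finset.coe_insert]
          exact Set.inter_eq_right.mpr (Set.subset_insert _ _)
        · exact ⟨hbu, by simp⟩
    refine ⟨w, ?_, key S hSQ hSk u hu rfl⟩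
    rw [hΩ]
    refine ⟨fun b hb => hb.1, ?_⟩
    intro S' h1 h2
    obtain ⟨h3, h4⟩ := hcup S' h1 h2
    obtain ⟨h5, h6⟩ := hcup S hSQ hSk
    -- choose u'
    have h7 : u ∩ (S₀ : Set P) ∈ ν S₀ := by
      rw [coh (S ∪ S₀) S₀ Finset.subset_union_right h5 h6]
      exact ⟨u, hu, rfl⟩
    rw [coh (S' ∪ S₀) S₀ Finset.subset_union_right h3 h4] at h7
    obtain ⟨u', hu', huu⟩ := h7
    have huu' : u' ∩ (S₀ : Set P) = u ∩ S₀ := huu
    rw [key S' h1 h2 u' hu' huu', coh (S' ∪ S₀) S' Finset.subset_union_left h3 h4]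
    exact ⟨u', hu', rfl⟩
  -- injectivity on Ω
  have hΩinj : Set.InjOn (fun w : Set P => w ∩ (S₀ : Set P)) Ω := by
    intro w hw w' hw' hww
    have hww' : w ∩ (S₀ : Set P) = w' ∩ S₀ := hww
    obtain ⟨h1, h2⟩ := hmem w hw
    obtain ⟨h1', h2'⟩ := hmem w' hw'
    have h3 : ∀ b ∈ Q, (b ∈ w ↔ b ∈ w') := by
      intro b hb
      have h4 := hinj b hb _ (h2 _ (hinsQ b hb) (hinsk b)) _ (h2' _ (hinsQ b hb) (hinsk b)) (by
        rw [Set.inter_assoc, Set.inter_assoc]
        have h5 : ((insert b S₀ : Finset P) : Set P) ∩ (S₀ : Set P) = S₀ := by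
          rw [Finset.coe_insert]
          exact Set.inter_eq_right.mpr (Set.subset_insert _ _)
        rw [h5]
        exact hww')
      have h5 : b ∈ ((insert b S₀ : Finset P) : Set P) := by simp
      have h6 : b ∈ w ∩ ((insert b S₀ : Finset P) : Set P) ↔ b ∈ w' ∩ ((insert b S₀ : Finset P) : Set P) := by
        rw [h4]
      constructor
      · intro h7
        exact (h6.mp ⟨h7, h5⟩).1
      · intro h7
        exact (h6.mpr ⟨h7, h5⟩).1
    ext b
    constructor
    · intro hb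
      exact (h3 b (h1 hb)).mp hb
    · intro hb
      exact (h3 b (h1' hb)).mpr hb
  have hmaps : Set.MapsTo (fun w : Set P => w ∩ (S₀ : Set P)) Ω (ν S₀) := by
    intro w hw
    exact (hmem w hw).2 S₀ hS₀Q (by omega)
  have hfS₀ := hfin S₀ hS₀Q hS₀k
  refine ⟨Set.Finite.of_injOn hmaps hΩinj hfS₀, ?_, ?_⟩
  · exact (Set.ncard_le_ncard_of_injOn _ hmaps hΩinj hfS₀).trans (hcard S₀ hS₀Q hS₀k)
  · intro S hSQ hSk
    apply Set.Subset.antisymm
    · rintro v ⟨w, hw, rfl⟩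
      exact (hmem w hw).2 S hSQ hSk
    · intro v hv
      have h1 : ((S ∪ S₀ : Finset P) : Set P) ⊆ Q := by
        rw [Finset.coe_union]
        exact Set.union_subset hSQ hS₀Q
      have h2 : (S ∪ S₀).card ≤ 2 * k := by
        have := Finset.card_union_le S S₀
        omega
      rw [coh (S ∪ S₀) S Finset.subset_union_left h1 h2] at hv
      obtain ⟨u, hu, rfl⟩ := hv
      obtain ⟨w, hw, hwu⟩ := hex S hSQ hSk u hu
      exact ⟨w, hw, hwu⟩

end Pool.Agent.VCM.Cnt
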