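import Pool.Agent.VCM.Cnt.Ext

/-! S15495, section 6.2: the sets `nu` and `om`. -/

namespace Pool.Agent.VCM.Cnt

variable {X P : Type}

theorem tr_tr {T : Set (Set P)} {A B : Set P} (h : B ⊆ A) : tr (tr T A) B = tr T B := by
  ext v
  constructor
  · rintro ⟨_, ⟨w, hw, rfl⟩, rfl⟩
    exact ⟨w, hw, by
      show w ∩ B = (w ∩ A) ∩ B
      rw [Set.inter_assoc, Set.inter_eq_self_of_subset_right h]⟩
  · rintro ⟨w, hw, rfl⟩
    exact ⟨_, ⟨w, hw, rfl⟩, by
      show (w ∩ A) ∩ B = w ∩ B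
      rw [Set.inter_assoc, Set.inter_eq_self_of_subset_right h]⟩

namespace Data

variable {d : Data X P}

theorem al_anti {C : Set X} {S S' : Set P} (h : S' ⊆ S) : d.al S C ⊆ d.al S' C :=
  fun _ hx => ⟨hx.1, fun b hb => hx.2 b (h hb)⟩

theorem al_same {C : Set X} (hC : C ∈ d.DD) {S : Set P} {x y : X} (hx : x ∈ d.al S C)
    (hy : y ∈ d.al S C) : ∀ b ∈ S, ∀ D ∈ d.E b, (x ∈ D ↔ y ∈ D) := by
  intro b hb D hD
  obtain ⟨b', hC'⟩ := hC
  rcases d.lam b b' D hD C hC' with h | h | h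
  · rcases eq_or_ne D C with rfl | hne
    · exact ⟨fun _ => hy.1, fun _ => hx.1⟩
    · have hDC : D ⊂ C := ⟨h, fun h' => hne (Set.Subset.antisymm h h')⟩
      exact ⟨fun h' => absurd h' (hx.2 b hb D hD hDC), fun h' => absurd h' (hy.2 b hb D hD hDC)⟩
  · exact ⟨fun _ => h hy.1, fun _ => h hx.1⟩
  · exact ⟨fun h' => absurd hx.1 (Set.disjoint_left.1 h h'),
      fun h' => absurd hy.1 (Set.disjoint_left.1 h h')⟩

theorem nu_eq {C : Set X} (hC : C ∈ d.DD) {S : Finset P} (hS : S.card ≤ 2 * d.k) {x : X}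
    (hx : x ∈ d.al S C) : d.nu C S = tr (d.τ x) S := by
  ext v
  constructor
  · rintro ⟨y, hy, hv⟩
    rw [d.own S hS x y fun b hb => al_same hC hx hy b (Finset.mem_coe.2 hb)]
    exact hv
  · intro hv
    exact ⟨x, hx, hv⟩

theorem om_spec {C : Set X} (hC : C ∈ d.DD) {Q : Set P} (hQ : d.Good C Q) :
    (d.om C Q).Finite ∧ (d.om C Q).ncard ≤ d.k ∧
      ∀ B : Finset P, ↑B ⊆ Q → ∀ x ∈ d.al B C, tr (d.τ x) B = tr (d.om C Q) B := by
  classical
  have h1 : (d.om C Q).Finite ∧ (d.om C Q).ncard ≤ d.k ∧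
      ∀ S : Finset P, ↑S ⊆ Q → S.card ≤ d.k → tr (d.om C Q) S = d.nu C S := by
    refine exists_ext (fun S : Finset P => d.nu C S) ?_ ?_ ?_ ?_ ?_ rfl
    · intro S hSQ hS
      obtain ⟨x, hx⟩ := hQ S hSQ hS
      simp only [nu_eq hC hS hx]
      exact (d.τfin x).image _
    · intro S hSQ hS
      obtain ⟨x, hx⟩ := hQ S hSQ hS
      simp only [nu_eq hC hS hx]
      exact (Set.ncard_image_le (d.τfin x)).trans (d.τcard x)
    · rintro S hSQ hS v ⟨x, hx, w, hw, rfl⟩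
      exact Set.inter_subset_right
    · intro S hSQ hS
      obtain ⟨x, hx⟩ := hQ S hSQ hS
      simp only [nu_eq hC hS hx]
      exact (d.τne x).image _
    · intro S S' hSS' hSQ hS
      obtain ⟨x, hx⟩ := hQ S hSQ hS
      have hS' : S'.card ≤ 2 * d.k := (Finset.card_le_card hSS').trans hS
      have hx' : x ∈ d.al (S' : Set P) C := al_anti (Finset.coe_subset.2 hSS') hx
      simp only [nu_eq hC hS hx, nu_eq hC hS' hx']
      exact (tr_tr (Finset.coe_subset.2 hSS')).symm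
  refine ⟨h1.1, h1.2.1, fun B hB x hx => ?_⟩
  refine tr_eq_of_small (d.τfin x) h1.1 (d.τcard x) h1.2.1 ?_
  intro S hSB hS
  rw [h1.2.2 S (hSB.trans hB) hS, nu_eq hC (by omega) (al_anti hSB hx)]

end Data

end Pool.Agent.VCM.Cnt
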