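import Pool.Agent.VCM.Cnt.Child
import Pool.Agent.VCM.Cnt.Om

/-! S15495, section 6.2: the main counting step. -/

namespace Pool.Agent.VCM.Cnt

variable {X P : Type}

namespace Data

variable {d : Data X P}

theorem DD_nonempty {D : Set X} (hD : D ∈ d.DD) : D.Nonempty := by
  obtain ⟨b, hb⟩ := hD
  exact d.Ene b D hb

theorem lam' {D D' : Set X} (h : D ∈ d.DD) (h' : D' ∈ d.DD) : D ⊆ D' ∨ D' ⊆ D ∨ Disjoint D D' := by
  obtain ⟨b, hb⟩ := h
  obtain ⟨b', hb'⟩ := h'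
  exact d.lam b b' D hb D' hb'

theorem iUnion_card (S : Finset P) (hS : S.card ≤ 2 * d.k) :
    (⋃ b ∈ S, d.E b).Finite ∧ (⋃ b ∈ S, d.E b).ncard ≤ d.q := by
  classical
  have h1 : ∀ S : Finset P, (⋃ b ∈ S, d.E b).Finite ∧ (⋃ b ∈ S, d.E b).ncard ≤ S.card * d.K := by
    intro S
    induction S using Finset.induction_on with
    | empty => simp
    | @insert a S ha ih =>
      rw [Finset.set_biUnion_insert]
      refine ⟨(d.Efin a).union ih.1, ?_⟩
      rw [Finset.card_insert_of_notMem ha, add_mul, one_mul, add_comm]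
      exact (Set.ncard_union_le _ _).trans (Nat.add_le_add (d.Ecard a) ih.2)
  refine ⟨(h1 S).1, (h1 S).2.trans ?_⟩
  exact Nat.mul_le_mul_right _ hS

theorem good_Qs {C D : Set X} (hC : C ∈ d.DD) (hD : D ∈ d.nodes C d.q) : d.Good C (d.Qs C D) := by
  classical
  intro S hSQ hS
  by_contra hemp
  rw [Set.not_nonempty_iff_eq_empty] at hemp
  obtain ⟨p, hp0, hpq, hpn, hpc⟩ := nodes_path hD
  have hpDD : ∀ i ≤ d.q, p i ∈ d.DD ∧ p i ⊆ C := fun i hi => nodes_DD hC (hpn i hi)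
  have hanti : ∀ i j, i ≤ j → j ≤ d.q → p j ⊆ p i := by
    intro i j hij
    induction j, hij using Nat.le_induction with
    | base => intro _; exact subset_rfl
    | succ j hij ih =>
      intro hj
      exact (hpc j (by omega)).2.2.1.subset.trans (ih (by omega))
  -- the points
  have hy : ∀ i, ∃ y, i ≤ d.q → y ∈ p i ∧ (i < d.q → y ∉ p (i + 1)) := by
    intro i
    by_cases hi : i < d.q
    · obtain ⟨y, h1, h2⟩ := Set.exists_of_ssubset (hpc i hi).2.2.1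
      exact ⟨y, fun _ => ⟨h1, fun _ => h2⟩⟩
    · by_cases hi' : i ≤ d.q
      · obtain ⟨y, h1⟩ := DD_nonempty (hpDD i hi').1
        exact ⟨y, fun _ => ⟨h1, fun h => absurd h hi⟩⟩
      · obtain ⟨y, h1⟩ := DD_nonempty hC
        exact ⟨y, fun h => absurd h hi'⟩
  choose y hy using hy
  have hE : ∀ i, ∃ E : Set X, i ≤ d.q → (E ∈ ⋃ b ∈ S, d.E b) ∧ E ⊂ C ∧ y i ∈ E := by
    intro i
    by_cases hi : i ≤ d.q
    · have h1 : y i ∉ d.al S C := by rw [hemp]; exact Set.notMem_empty _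
      have h2 : y i ∈ C := (hpDD i hi).2 (hy i hi).1
      by_contra hcon
      apply h1
      refine ⟨h2, fun b hb E hE hEC hyE => hcon ⟨E, fun _ => ⟨?_, hEC, hyE⟩⟩⟩
      simp only [Set.mem_iUnion]
      exact ⟨b, hb, hE⟩
    · exact ⟨∅, fun h => absurd h hi⟩
  choose E hE using hE
  obtain ⟨hfin, hcard⟩ := iUnion_card S hS
  have hcard' : hfin.toFinset.card < (Finset.range (d.q + 1)).card := by
    rw [← Set.ncard_eq_toFinset_card _ hfin, Finset.card_range]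
    omega
  obtain ⟨i₁, hi₁, i₂, hi₂, hne, hEE⟩ := Finset.exists_ne_map_eq_of_card_lt_of_maps_to hcard'
    (f := E) (fun i hi => by
      rw [Finset.mem_coe, Finset.mem_range] at hi
      rw [Finset.mem_coe, Set.Finite.mem_toFinset]
      exact (hE i (by omega)).1)
  have key : ∀ i j, i < j → j ≤ d.q → E i = E j → False := by
    intro i j hij hj hEE
    have hEi := hE i (by omega)
    have hEj := hE j hj
    have hEDD : E i ∈ d.DD := by
      have := hEi.1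
      simp only [Set.mem_iUnion] at this
      obtain ⟨b, -, hb⟩ := this
      exact ⟨b, hb⟩
    have hyj : y j ∈ E i := by rw [hEE]; exact hEj.2.2
    have hyj' : y j ∈ p (i + 1) := hanti (i + 1) j (by omega) hj (hy j hj).1
    have hnot : ¬ E i ⊆ p (i + 1) := fun h => (hy i (by omega)).2 (by omega) (h hEi.2.2)
    -- the last l with E i ⊆ p l
    have hex : ∃ l, l ≤ i ∧ E i ⊆ p l ∧ ¬ E i ⊆ p (l + 1) := by
      by_contra hcon
      push Not at hcon
      have : ∀ l, l ≤ i + 1 → E i ⊆ p l := by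
        intro l
        induction l with
        | zero => intro _; rw [hp0]; exact hEi.2.1.subset
        | succ l ih => intro hl; exact hcon l (by omega) (ih (by omega))
      exact hnot (this _ le_rfl)
    obtain ⟨l, hli, hEl, hEl'⟩ := hex
    have hlq : l < d.q := by omega
    by_cases hEq : E i = p l
    · have hl1 : 1 ≤ l := by
        rcases Nat.eq_zero_or_pos l with h | h
        · rw [h, hp0] at hEq
          exact absurd hEq hEi.2.1.ne
        · exact h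
      have := hEi.1
      simp only [Set.mem_iUnion] at this
      obtain ⟨b, hbS, hb⟩ := this
      have hbQ := hSQ (Finset.mem_coe.2 hbS)
      refine hbQ l hl1 hlq (p l) (hpn l hlq.le) ?_ ?_
      · rw [← hpq]; exact hanti l d.q hlq.le le_rfl
      · rw [← hEq]; exact hb
    · have hss : E i ⊂ p l := ⟨hEl, fun h => hEq (Set.Subset.antisymm hEl h)⟩
      obtain ⟨D', hD', hED'⟩ := exists_child (hpc l hlq).1 hEDD hss
      rcases child_disj hD' (hpc l hlq).2 with h | h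
      · rw [h] at hED'; exact hEl' hED'
      · have h1 : y j ∈ p (l + 1) := hanti (l + 1) j (by omega) hj (hy j hj).1
        exact Set.disjoint_left.1 h (hED' hyj) h1
  rw [Finset.mem_range] at hi₁ hi₂
  rcases Nat.lt_or_gt_of_ne hne with h | h
  · exact key i₁ i₂ h (by omega) hEE
  · exact key i₂ i₁ h (by omega) hEE.symm

theorem ncard_biUnion_le {α β : Type} {s : Set α} (hs : s.Finite) (f : α → Set β) {m n : ℕ}
    (hm : s.ncard ≤ m) (h : ∀ a ∈ s, (f a).Finite ∧ (f a).ncard ≤ n) :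
    (⋃ a ∈ s, f a).Finite ∧ (⋃ a ∈ s, f a).ncard ≤ m * n := by
  classical
  refine ⟨hs.biUnion fun a ha => (h a ha).1, ?_⟩
  refine le_trans ?_ (Nat.mul_le_mul_right n hm)
  clear hm
  induction s, hs using Set.Finite.induction_on with
  | empty => simp
  | @insert a s ha hs ih =>
    rw [Set.biUnion_insert, Set.ncard_insert_of_notMem ha hs, add_mul, one_mul, add_comm]
    refine (Set.ncard_union_le _ _).trans (Nat.add_le_add (h a (Set.mem_insert _ _)).2 ?_)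
    exact ih fun b hb => h b (Set.mem_insert_of_mem _ hb)

theorem T'_card (b₀ : P) : (d.T' b₀).Finite ∧
    (d.T' b₀).ncard ≤ 1 + d.K * (d.q * (d.q ^ d.q * d.k) + d.q ^ d.q * d.k) + 1 := by
  classical
  let A₁ : Set X → ℕ → Set (Set P) := fun C j => ⋃ D ∈ {D | D ∈ d.nodes C j ∧ d.Thick D}, d.om D Set.univ
  let A₂ : Set X → Set (Set P) := fun C => ⋃ D ∈ d.nodes C d.q, d.om C (d.Qs C D)
  let A : Set X → Set (Set P) := fun C => (⋃ j ∈ {j : ℕ | j < d.q}, A₁ C j) ∪ A₂ C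
  have hT : d.T' b₀ ⊆ {∅} ∪ ⋃ C ∈ d.E b₀, A C := by
    rintro w (rfl | ⟨C, hC, h⟩)
    · exact Or.inl rfl
    · right
      simp only [Set.mem_iUnion]
      refine ⟨C, hC, ?_⟩
      rcases h with ⟨j, hj, D, hD, hDt, hw⟩ | ⟨D, hD, hw⟩
      · left
        simp only [A₁, Set.mem_iUnion]
        exact ⟨j, hj, D, ⟨hD, hDt⟩, hw⟩
      · right
        simp only [A₂, Set.mem_iUnion]
        exact ⟨D, hD, hw⟩
  have hA₁ : ∀ C ∈ d.E b₀, ∀ j ∈ {j : ℕ | j < d.q}, (A₁ C j).Finite ∧ (A₁ C j).ncard ≤ d.q ^ d.q * d.k := by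
    intro C hC j hj
    have hj' : j < d.q := hj
    have h1 := nodes_fin (d := d) (C := C) j
    refine ncard_biUnion_le (h1.1.subset fun D hD => hD.1) _ ?_ ?_
    · refine (Set.ncard_le_ncard (fun D hD => hD.1) h1.1).trans (h1.2.trans ?_)
      exact Nat.pow_le_pow_right (by omega) hj'.le
    · rintro D ⟨hD, hDt⟩
      have h2 := om_spec (nodes_DD ⟨b₀, hC⟩ hD).1 (Q := Set.univ) (fun S _ hS => hDt S hS)
      exact ⟨h2.1, h2.2.1⟩
  have hA₂ : ∀ C ∈ d.E b₀, (A₂ C).Finite ∧ (A₂ C).ncard ≤ d.q ^ d.q * d.k := by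
    intro C hC
    have h1 := nodes_fin (d := d) (C := C) d.q
    refine ncard_biUnion_le h1.1 _ h1.2 ?_
    intro D hD
    have h2 := om_spec (Q := d.Qs C D) ⟨b₀, hC⟩ (good_Qs ⟨b₀, hC⟩ hD)
    exact ⟨h2.1, h2.2.1⟩
  have hA : ∀ C ∈ d.E b₀, (A C).Finite ∧ (A C).ncard ≤ d.q * (d.q ^ d.q * d.k) + d.q ^ d.q * d.k := by
    intro C hC
    have h1 : (⋃ j ∈ {j : ℕ | j < d.q}, A₁ C j).Finite ∧ (⋃ j ∈ {j : ℕ | j < d.q}, A₁ C j).ncard ≤
        d.q * (d.q ^ d.q * d.k) := by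
      refine ncard_biUnion_le (Set.finite_lt_nat _) _ ?_ (hA₁ C hC)
      have : {j : ℕ | j < d.q} = ↑(Finset.range d.q) := by ext j; simp
      rw [this, Set.ncard_coe_finset, Finset.card_range]
    refine ⟨h1.1.union (hA₂ C hC).1, ?_⟩
    exact (Set.ncard_union_le _ _).trans (Nat.add_le_add h1.2 (hA₂ C hC).2)
  have hU := ncard_biUnion_le (d.Efin b₀) A (d.Ecard b₀) hA
  have hfin : ({∅} ∪ ⋃ C ∈ d.E b₀, A C).Finite := (Set.finite_singleton _).union hU.1
  refine ⟨hfin.subset hT, ?_⟩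
  have h1 := Set.ncard_le_ncard hT hfin
  have h2 := Set.ncard_union_le {∅} (⋃ C ∈ d.E b₀, A C)
  rw [Set.ncard_singleton] at h2
  have h3 := hU.2
  omega

theorem main (B : Finset P) (hB : B.Nonempty) (x : X) :
    ∃ b₀ ∈ B, ∃ ρ ⊆ d.T' b₀, tr (d.τ x) B = tr ρ B := by
  classical
  -- the smallest ball
  have hfin : ({D | (∃ b ∈ B, D ∈ d.E b) ∧ x ∈ D} : Set (Set X)).Finite := by
    refine ((Finset.finite_toSet B).biUnion fun b _ => d.Efin b).subset ?_
    rintro D ⟨⟨b, hb, hD⟩, -⟩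
    simp only [Set.mem_iUnion]
    exact ⟨b, Finset.mem_coe.2 hb, hD⟩
  have hne : ({D | (∃ b ∈ B, D ∈ d.E b) ∧ x ∈ D} : Set (Set X)).Nonempty := by
    obtain ⟨b, hb⟩ := hB
    exact ⟨Set.univ, ⟨b, hb, d.Euniv b⟩, Set.mem_univ _⟩
  obtain ⟨C, ⟨⟨⟨b₀, hb₀, hC⟩, hxC⟩, hmin⟩⟩ := hfin.exists_minimal hne
  have hCDD : C ∈ d.DD := ⟨b₀, hC⟩
  have hxal : ∀ D, D ⊆ C → x ∈ D → x ∈ d.al B D := by
    intro D hDC hxD
    refine ⟨hxD, fun b hb D' hD' hD'D hxD' => ?_⟩
    have h1 : C ⊆ D' := hmin ⟨⟨b, Finset.mem_coe.1 hb, hD'⟩, hxD'⟩ (hD'D.subset.trans hDC)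
    exact hD'D.2 (hDC.trans h1)
  refine ⟨b₀, hb₀, ?_⟩
  rcases path_of_mem (d := d) hxC d.q with ⟨i, hi, D, hD, hDt, hxD⟩ | ⟨D, hD, hxD⟩
  · refine ⟨d.om D Set.univ, ?_, ?_⟩
    · intro w hw
      exact Or.inr ⟨C, hC, Or.inl ⟨i, hi, D, hD, hDt, hw⟩⟩
    · exact (om_spec (nodes_DD hCDD hD).1 (Q := Set.univ) (fun S _ hS => hDt S hS)).2.2 B
        (Set.subset_univ _) x (hxal D (nodes_DD hCDD hD).2 hxD)
  · refine ⟨d.om C (d.Qs C D), ?_, ?_⟩
    · intro w hw
      exact Or.inr ⟨C, hC, Or.inr ⟨D, hD, hw⟩⟩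
    · refine (om_spec hCDD (good_Qs hCDD hD)).2.2 B ?_ x (hxal C subset_rfl hxC)
      intro b hb i hi1 hiq D' hD' hDD' hD'b
      have h1 : D' ⊂ C := nodes_ssub hi1 hD'
      exact (hxal C subset_rfl hxC).2 b hb D' hD'b h1 (hDD' hxD)

end Data

end Pool.Agent.VCM.Cnt
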