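import Pool.Agent.VCM.Sys

/-! S15495, section 6: calculus of definable predicates in contexts. -/

open FirstOrder FirstOrder.Language

namespace Pool.Agent.VCM.Cnt

variable {L : FirstOrder.Language.{0, 0}} {N : Type} [L.Structure N]
variable {γ κ κ' : Type}

/-- a tuple of variables -/
def IsVars (t : (γ → N) → (κ → N)) : Prop := ∃ s : κ → γ, ∀ v j, t v j = v (s j)

/-- a variable -/
def IsVar (t : (γ → N) → N) : Prop := ∃ s : γ, ∀ v, t v = v s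

theorem IsVars.lift {t : (γ → N) → (κ → N)} (h : IsVars t) :
    IsVars (fun u : γ ⊕ κ' → N => t (u ∘ Sum.inl)) := by
  obtain ⟨s, hs⟩ := h
  exact ⟨fun j => Sum.inl (s j), fun v j => hs (v ∘ Sum.inl) j⟩

theorem IsVar.lift {t : (γ → N) → N} (h : IsVar t) :
    IsVar (fun u : γ ⊕ κ' → N => t (u ∘ Sum.inl)) := by
  obtain ⟨s, hs⟩ := h
  exact ⟨Sum.inl s, fun v => hs (v ∘ Sum.inl)⟩

theorem isVars_inr : IsVars (fun u : γ ⊕ κ → N => u ∘ Sum.inr) := ⟨Sum.inr, fun _ _ => rfl⟩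

theorem isVar_inr (k : κ) : IsVar (fun u : γ ⊕ κ → N => u (Sum.inr k)) := ⟨Sum.inr k, fun _ => rfl⟩

theorem IsVars.comp {t : (γ → N) → (κ → N)} (h : IsVars t) (f : κ' → κ) :
    IsVars (fun v j => t v (f j)) := by
  obtain ⟨s, hs⟩ := h
  exact ⟨fun j => s (f j), fun v j => hs v (f j)⟩

theorem IsVars.app {t : (γ → N) → (κ → N)} (h : IsVars t) (k : κ) : IsVar (fun v => t v k) := by
  obtain ⟨s, hs⟩ := h
  exact ⟨s k, fun v => hs v k⟩

theorem IsVars.elim {t : (γ → N) → (κ → N)} {t' : (γ → N) → (κ' → N)} (h : IsVars t)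
    (h' : IsVars t') : IsVars (fun v => Sum.elim (t v) (t' v)) := by
  obtain ⟨s, hs⟩ := h
  obtain ⟨s', hs'⟩ := h'
  refine ⟨Sum.elim s s', fun v j => ?_⟩
  rcases j with j | j
  · exact hs v j
  · exact hs' v j

theorem IsVar.const {t : (γ → N) → N} (h : IsVar t) : IsVars (fun v (_ : κ) => t v) := by
  obtain ⟨s, hs⟩ := h
  exact ⟨fun _ => s, fun v _ => hs v⟩

theorem isVars_of {t : (γ → N) → (κ → N)} (h : ∀ k, IsVar (fun v => t v k)) : IsVars t := by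
  choose s hs using h
  exact ⟨s, fun v j => hs j v⟩

theorem IsVars.ext {α : Type} {a : (γ → N) → (α → N)} {x : (γ → N) → N} (ha : IsVars a) (hx : IsVar x) :
    IsVars (fun v => VCM.ext (a v) (x v)) := ha.elim hx.const

theorem dapp {R : (κ → N) → Prop} (h : Dfn L R) {t : (γ → N) → (κ → N)} (ht : IsVars t) :
    Dfn L (fun v => R (t v)) := by
  obtain ⟨s, hs⟩ := ht
  exact h.comp s t hs

theorem dmem (θ : Fm L) {x : (γ → N) → N} (hx : IsVar x) {w : (γ → N) → (ℕ → N)} (hw : IsVars w) :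
    Dfn L (fun v => x v ∈ fib θ (w v)) := by
  obtain ⟨i, hi⟩ := hx
  obtain ⟨s, hs⟩ := hw
  exact dfn_mem θ i s x w hi hs

section

variable [Nonempty N]

theorem deq (θ θ' : Fm L) {w w' : (γ → N) → (ℕ → N)} (hw : IsVars w) (hw' : IsVars w') :
    Dfn L (fun v => fib θ (w v) = fib θ' (w' v)) := dapp (dfn_eq θ θ') (hw.elim hw')

theorem dsub (θ θ' : Fm L) {w w' : (γ → N) → (ℕ → N)} (hw : IsVars w) (hw' : IsVars w') :
    Dfn L (fun v => fib θ (w v) ⊆ fib θ' (w' v)) := dapp (dfn_subset θ θ') (hw.elim hw')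

end

variable {α : Type} {p : ℕ}

/-- a set coded in the family `B` -/
def IsC (B : BFam L N α p) (D : (γ → N) → Set N) : Prop :=
  ∃ (i : B.ι) (w : (γ → N) → (ℕ → N)), IsVars w ∧ ∀ v, D v = fib (B.δ i) (w v)

variable {B : BFam L N α p}

theorem IsC.lift {D : (γ → N) → Set N} (h : IsC B D) :
    IsC B (fun u : γ ⊕ κ' → N => D (u ∘ Sum.inl)) := by
  obtain ⟨i, w, hw, h⟩ := h
  exact ⟨i, _, hw.lift, fun v => h _⟩

theorem isC_inr (i : B.ι) : IsC B (fun u : γ ⊕ ℕ → N => fib (B.δ i) (u ∘ Sum.inr)) :=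
  ⟨i, _, isVars_inr, fun _ => rfl⟩

section

variable [Nonempty N]

theorem IsC.mem {D : (γ → N) → Set N} (hD : IsC B D) {x : (γ → N) → N} (hx : IsVar x) :
    Dfn L (fun v => x v ∈ D v) := by
  obtain ⟨i, w, hw, h⟩ := hD
  exact (dmem (B.δ i) hx hw).of_iff fun v => by rw [h]

theorem IsC.eq {D D' : (γ → N) → Set N} (hD : IsC B D) (hD' : IsC B D') :
    Dfn L (fun v => D v = D' v) := by
  obtain ⟨i, w, hw, h⟩ := hD
  obtain ⟨i', w', hw', h'⟩ := hD'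
  exact (deq (B.δ i) (B.δ i') hw hw').of_iff fun v => by rw [h, h']

theorem IsC.sub {D D' : (γ → N) → Set N} (hD : IsC B D) (hD' : IsC B D') :
    Dfn L (fun v => D v ⊆ D' v) := by
  obtain ⟨i, w, hw, h⟩ := hD
  obtain ⟨i', w', hw', h'⟩ := hD'
  exact (dsub (B.δ i) (B.δ i') hw hw').of_iff fun v => by rw [h, h']

theorem IsC.ssub {D D' : (γ → N) → Set N} (hD : IsC B D) (hD' : IsC B D') :
    Dfn L (fun v => D v ⊂ D' v) :=
  ((hD.sub hD').and (hD'.sub hD).not).of_iff fun _ => Iff.rfl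

/-- `∃ D ∈ E a b` -/
theorem exE {a : (γ → N) → (α → N)} (ha : IsVars a) {b : (γ → N) → (Fin p → N)} (hb : IsVars b)
    {Φ : (γ → N) → Set N → Prop}
    (h : ∀ i, Dfn L (fun u : γ ⊕ ℕ → N => Φ (u ∘ Sum.inl) (fib (B.δ i) (u ∘ Sum.inr)))) :
    Dfn L (fun v => ∃ D ∈ B.E (a v) (b v), Φ v D) := by
  have := B.fin
  have h1 : Dfn L (fun v => ∃ i : B.ι, ∃ w : ℕ → N,
      B.R i (Sum.elim (Sum.elim (a v) (b v)) w) ∧ Φ v (fib (B.δ i) w)) := by
    refine Dfn.finiteEx fun i => ?_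
    refine Dfn.exT (κ := ℕ) (R := fun (v : γ → N) (w : ℕ → N) =>
      B.R i (Sum.elim (Sum.elim (a v) (b v)) w) ∧ Φ v (fib (B.δ i) w)) ?_
    exact (dapp (B.dfn i) ((ha.lift.elim hb.lift).elim isVars_inr)).and (h i)
  refine h1.of_iff fun v => ?_
  constructor
  · rintro ⟨i, w, h1, h2⟩
    exact ⟨_, ⟨i, w, h1, rfl⟩, h2⟩
  · rintro ⟨_, ⟨i, w, h1, rfl⟩, h2⟩
    exact ⟨i, w, h1, h2⟩

theorem allE {a : (γ → N) → (α → N)} (ha : IsVars a) {b : (γ → N) → (Fin p → N)} (hb : IsVars b)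
    {Φ : (γ → N) → Set N → Prop}
    (h : ∀ i, Dfn L (fun u : γ ⊕ ℕ → N => Φ (u ∘ Sum.inl) (fib (B.δ i) (u ∘ Sum.inr)))) :
    Dfn L (fun v => ∀ D ∈ B.E (a v) (b v), Φ v D) :=
  (exE ha hb (Φ := fun v D => ¬ Φ v D) fun i => (h i).not).not.of_iff fun v => by push Not; rfl

/-- `D ∈ E a b` -/
theorem dE {a : (γ → N) → (α → N)} (ha : IsVars a) {b : (γ → N) → (Fin p → N)} (hb : IsVars b)
    {D : (γ → N) → Set N} (hD : IsC B D) : Dfn L (fun v => D v ∈ B.E (a v) (b v)) :=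
  (exE ha hb (Φ := fun v D' => D' = D v) fun i => (isC_inr i).eq hD.lift).of_iff fun v => by simp

/-- `D` is a ball of the family over `a` -/
def DDs (B : BFam L N α p) (a : α → N) : Set (Set N) := {D | ∃ b, D ∈ B.E a b}

/-- `∃ D ∈ DD a` -/
theorem exDD {a : (γ → N) → (α → N)} (ha : IsVars a)
    {Φ : (γ → N) → Set N → Prop}
    (h : ∀ i, Dfn L (fun u : γ ⊕ ℕ → N => Φ (u ∘ Sum.inl) (fib (B.δ i) (u ∘ Sum.inr)))) :
    Dfn L (fun v => ∃ D ∈ DDs B (a v), Φ v D) := by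
  have := B.fin
  have h1 : Dfn L (fun v => ∃ i : B.ι, ∃ w : ℕ → N,
      (∃ b : Fin p → N, B.R i (Sum.elim (Sum.elim (a v) b) w)) ∧ Φ v (fib (B.δ i) w)) := by
    refine Dfn.finiteEx fun i => ?_
    refine Dfn.exT (κ := ℕ) (R := fun (v : γ → N) (w : ℕ → N) =>
      (∃ b : Fin p → N, B.R i (Sum.elim (Sum.elim (a v) b) w)) ∧ Φ v (fib (B.δ i) w)) ?_
    refine Dfn.and ?_ (h i)
    refine Dfn.exT (κ := Fin p) (R := fun (u : γ ⊕ ℕ → N) (b : Fin p → N) =>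
      B.R i (Sum.elim (Sum.elim (a (u ∘ Sum.inl)) b) (u ∘ Sum.inr))) ?_
    exact dapp (B.dfn i) ((ha.lift.lift.elim isVars_inr).elim isVars_inr.lift)
  refine h1.of_iff fun v => ?_
  constructor
  · rintro ⟨i, w, ⟨b, h1⟩, h2⟩
    exact ⟨_, ⟨b, i, w, h1, rfl⟩, h2⟩
  · rintro ⟨_, ⟨b, i, w, h1, rfl⟩, h2⟩
    exact ⟨i, w, ⟨b, h1⟩, h2⟩

theorem allDD {a : (γ → N) → (α → N)} (ha : IsVars a)
    {Φ : (γ → N) → Set N → Prop}
    (h : ∀ i, Dfn L (fun u : γ ⊕ ℕ → N => Φ (u ∘ Sum.inl) (fib (B.δ i) (u ∘ Sum.inr)))) :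
    Dfn L (fun v => ∀ D ∈ DDs B (a v), Φ v D) :=
  (exDD ha (Φ := fun v D => ¬ Φ v D) fun i => (h i).not).not.of_iff fun v => by push Not; rfl

theorem dDD {a : (γ → N) → (α → N)} (ha : IsVars a)
    {D : (γ → N) → Set N} (hD : IsC B D) : Dfn L (fun v => D v ∈ DDs B (a v)) :=
  (exDD ha (Φ := fun v D' => D' = D v) fun i => (isC_inr i).eq hD.lift).of_iff fun v => by simp

end

end Pool.Agent.VCM.Cnt
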