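import Pool.Agent.VCM.Cnt.StepA
import Pool.Agent.VCM.Cnt.Defs

/-! S15495, section 6: definability of thick balls, children, nodes. -/

open FirstOrder FirstOrder.Language

namespace Pool.Agent.VCM.Cnt

/-- the patterns of a set of subsets of `P` on a tuple -/
def pt {P : Type} (T : Set (Set P)) {J : Type} (s : J → P) : Set (J → Prop) := (fun w j => s j ∈ w) '' T

theorem tr_range_iff {P J : Type} (s : J → P) (T T' : Set (Set P)) :
    tr T (Set.range s) = tr T' (Set.range s) ↔ pt T s = pt T' s := by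
  have key : ∀ T T' : Set (Set P), (tr T (Set.range s) ⊆ tr T' (Set.range s) ↔ pt T s ⊆ pt T' s) := by
    intro T T'
    constructor
    · rintro h _ ⟨w, hw, rfl⟩
      obtain ⟨w', hw', e⟩ := h ⟨w, hw, rfl⟩
      refine ⟨w', hw', ?_⟩
      funext j
      have : (s j ∈ w' ∩ Set.range s) = (s j ∈ w ∩ Set.range s) := by
        have e' : w' ∩ Set.range s = w ∩ Set.range s := e
        rw [e']
      simpa using this
    · rintro h _ ⟨w, hw, rfl⟩
      obtain ⟨w', hw', e⟩ := h ⟨w, hw, rfl⟩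
      refine ⟨w', hw', ?_⟩
      show w' ∩ Set.range s = w ∩ Set.range s
      ext b
      constructor
      · rintro ⟨h1, j, rfl⟩
        have := congrFun e j
        exact ⟨by simpa using (this ▸ h1 : (fun w j => s j ∈ w) w j), j, rfl⟩
      · rintro ⟨h1, j, rfl⟩
        have := congrFun e j
        exact ⟨by simpa using (this.symm ▸ h1 : (fun w j => s j ∈ w) w' j), j, rfl⟩
  rw [Set.Subset.antisymm_iff, Set.Subset.antisymm_iff, key, key]

variable {L : FirstOrder.Language.{0, 0}} {N : Type} [L.Structure N] [Nonempty N]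
variable {α : Type} {p k : ℕ}

/-- a family of data, given by `B` and `S` -/
structure Fam (S : Sys L N (α ⊕ Unit) p k) (B : BFam L N α p) (K : ℕ) where
  d : (α → N) → Data N (Fin p → N)
  hE : ∀ a b, (d a).E b = B.E a b
  hτ : ∀ a x, (d a).τ x = S.T (ext a x)
  hk : ∀ a, (d a).k = k
  hK : ∀ a, (d a).K = K

variable {S : Sys L N (α ⊕ Unit) p k} {B : BFam L N α p} {K : ℕ} (F : Fam S B K)
variable {γ : Type}

theorem Fam.DD (a : α → N) : (F.d a).DD = DDs B a := by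
  ext D
  simp [Data.DD, DDs, F.hE]

theorem Fam.q (a : α → N) : (F.d a).q = 2 * k * K := by
  simp [Data.q, F.hk, F.hK]

theorem Fam.mem_al (a : α → N) {J : Type} (s : J → Fin p → N) (x : N) (D : Set N) :
    x ∈ (F.d a).al (Set.range s) D ↔ x ∈ D ∧ ∀ j, ∀ D' ∈ B.E a (s j), D' ⊂ D → ¬ x ∈ D' := by
  simp [Data.al, F.hE]

theorem Fam.dal {a : (γ → N) → (α → N)} (ha : IsVars a) {J : Type} [Finite J]
    {s : (γ → N) → (J → Fin p → N)} (hs : ∀ j, IsVars (fun v => s v j)) {x : (γ → N) → N} (hx : IsVar x)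
    {D : (γ → N) → Set N} (hD : IsC B D) :
    Dfn L (fun v => x v ∈ (F.d (a v)).al (Set.range (s v)) (D v)) := by
  refine Dfn.of_iff (R := fun v => x v ∈ D v ∧ ∀ j, ∀ D' ∈ B.E (a v) (s v j), D' ⊂ D v → ¬ x v ∈ D')
    ?_ fun v => (F.mem_al (a v) (s v) (x v) (D v)).symm
  refine (hD.mem hx).and (Dfn.finiteAll fun j => ?_)
  refine allE ha (hs j) (Φ := fun v D' => D' ⊂ D v → ¬ x v ∈ D') fun i => ?_
  exact ((isC_inr i).ssub hD.lift).imp ((isC_inr i).mem hx.lift).not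

theorem finset_iff_tuple {P : Type} (n : ℕ) (Φ : Set P → Prop) :
    (∀ S : Finset P, S.card ≤ n → Φ S) ↔ ∀ m ∈ Finset.range (n + 1), ∀ s : Fin m → P, Φ (Set.range s) := by
  classical
  constructor
  · intro h m hm s
    have h1 : (Finset.univ.image s).card ≤ n := by
      refine Finset.card_image_le.trans ?_
      rw [Finset.card_univ, Fintype.card_fin]
      exact Nat.lt_succ_iff.1 (Finset.mem_range.1 hm)
    have h2 := h _ h1
    simpa using h2
  · intro h S hS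
    have h1 := h S.card (Finset.mem_range.2 (Nat.lt_succ_of_le hS)) (fun i => (S.equivFin.symm i : P))
    have h2 : Set.range (fun i : Fin S.card => ((S.equivFin.symm i : S) : P)) = (S : Set P) := by
      ext x
      constructor
      · rintro ⟨i, rfl⟩
        exact (S.equivFin.symm i).2
      · intro hx
        exact ⟨S.equivFin ⟨x, hx⟩, by simp⟩
    rwa [h2] at h1

theorem Fam.dThick {a : (γ → N) → (α → N)} (ha : IsVars a)
    {D : (γ → N) → Set N} (hD : IsC B D) : Dfn L (fun v => (F.d (a v)).Thick (D v)) := by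
  refine Dfn.of_iff (R := fun v => ∀ m ∈ Finset.range (2 * k + 1), ∀ s : Fin m × Fin p → N, ∃ x : N,
    x ∈ (F.d (a v)).al (Set.range (fun j i => s (j, i))) (D v)) ?_ fun v => ?_
  · refine Dfn.finsetAll _ fun m _ => ?_
    refine Dfn.allT (R := fun v (s : Fin m × Fin p → N) => ∃ x : N,
      x ∈ (F.d (a v)).al (Set.range (fun j i => s (j, i))) (D v)) ?_
    refine Dfn.ex1 (R := fun (u : γ ⊕ (Fin m × Fin p) → N) (x : N) =>
      x ∈ (F.d (a (u ∘ Sum.inl))).al (Set.range (fun j i => (u ∘ Sum.inr) (j, i))) (D (u ∘ Sum.inl))) ?_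
    exact F.dal ha.lift.lift (s := fun u j i => u (Sum.inl (Sum.inr (j, i))))
      (fun j => ⟨fun i => Sum.inl (Sum.inr (j, i)), fun _ _ => rfl⟩) (isVar_inr ()) hD.lift.lift
  · rw [Data.Thick, F.hk, finset_iff_tuple (2 * k) (fun S => ((F.d (a v)).al S (D v)).Nonempty)]
    refine forall_congr' fun m => forall_congr' fun _ => ?_
    constructor
    · intro h s
      exact h (fun q => s q.1 q.2)
    · intro h s
      exact h (fun j i => s (j, i))

theorem Fam.dChild {a : (γ → N) → (α → N)} (ha : IsVars a)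
    {C D : (γ → N) → Set N} (hC : IsC B C) (hD : IsC B D) :
    Dfn L (fun v => (F.d (a v)).Child (C v) (D v)) := by
  refine Dfn.of_iff (R := fun v => D v ∈ DDs B (a v) ∧ D v ⊂ C v ∧
    ∀ D' ∈ DDs B (a v), D' ⊂ C v → D v ⊆ D' → D' = D v) ?_ fun v => ?_
  · refine (dDD ha hD).and ((hD.ssub hC).and ?_)
    refine allDD ha (Φ := fun v D' => D' ⊂ C v → D v ⊆ D' → D' = D v) fun i => ?_
    exact ((isC_inr i).ssub hC.lift).imp ((hD.lift.sub (isC_inr i)).imp ((isC_inr i).eq hD.lift))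
  · rw [Data.Child, F.DD]

/-- membership in `nodes`, for `C ∈ DD`, by recursion through `DD` -/
theorem Fam.nodes_succ (a : α → N) {C D : Set N} (hC : C ∈ DDs B a) (j : ℕ) :
    D ∈ (F.d a).nodes C (j + 1) ↔ ∃ D' ∈ DDs B a, D' ∈ (F.d a).nodes C j ∧ ¬ (F.d a).Thick D' ∧
      (F.d a).Child D' D := by
  constructor
  · rintro ⟨D', h1, h2, h3⟩
    refine ⟨D', ?_, h1, h2, h3⟩
    rcases j with _ | j
    · have : D' = C := h1
      rw [this]; exact hC
    · obtain ⟨D'', -, -, h4⟩ := h1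
      rw [← F.DD]; exact h4.1
  · rintro ⟨D', -, h1, h2, h3⟩
    exact ⟨D', h1, h2, h3⟩

/-- definability of `C ∈ DD ∧ D ∈ nodes C j` -/
theorem Fam.dnodes {a : (γ → N) → (α → N)} (ha : IsVars a)
    {C D : (γ → N) → Set N} (hC : IsC B C) (hD : IsC B D) (j : ℕ) :
    Dfn L (fun v => C v ∈ DDs B (a v) ∧ D v ∈ (F.d (a v)).nodes (C v) j) := by
  induction j generalizing γ with
  | zero =>
    exact ((dDD ha hC).and (hD.eq hC)).of_iff fun v => Iff.rfl
  | succ j ih =>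
    refine Dfn.of_iff (R := fun v => C v ∈ DDs B (a v) ∧ ∃ D' ∈ DDs B (a v),
      (C v ∈ DDs B (a v) ∧ D' ∈ (F.d (a v)).nodes (C v) j) ∧ ¬ (F.d (a v)).Thick D' ∧
      (F.d (a v)).Child D' (D v)) ?_ fun v => ?_
    · refine (dDD ha hC).and (exDD ha (Φ := fun v D' => (C v ∈ DDs B (a v) ∧
        D' ∈ (F.d (a v)).nodes (C v) j) ∧ ¬ (F.d (a v)).Thick D' ∧ (F.d (a v)).Child D' (D v)) fun i => ?_)
      exact (ih ha.lift hC.lift (isC_inr i)).and ((F.dThick ha.lift (isC_inr i)).not.and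
        (F.dChild ha.lift (isC_inr i) hD.lift))
    · constructor
      · rintro ⟨h1, D', h2, ⟨-, h3⟩, h4, h5⟩
        exact ⟨h1, (F.nodes_succ (a v) h1 j).2 ⟨D', h2, h3, h4, h5⟩⟩
      · rintro ⟨h1, h2⟩
        obtain ⟨D', h2, h3, h4, h5⟩ := (F.nodes_succ (a v) h1 j).1 h2
        exact ⟨h1, D', h2, ⟨h1, h3⟩, h4, h5⟩

theorem Fam.nodes_DD' (a : α → N) {C D : Set N} (hC : C ∈ DDs B a) {j : ℕ} (h : D ∈ (F.d a).nodes C j) :
    D ∈ DDs B a := by
  rcases j with _ | j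
  · have : D = C := h
    rw [this]; exact hC
  · obtain ⟨D'', -, -, h4⟩ := h
    rw [← F.DD]; exact h4.1

/-- definability of `C ∈ DD ∧ b ∈ Qs C D` -/
theorem Fam.dQs {a : (γ → N) → (α → N)} (ha : IsVars a) {b : (γ → N) → (Fin p → N)} (hb : IsVars b)
    {C D : (γ → N) → Set N} (hC : IsC B C) (hD : IsC B D) :
    Dfn L (fun v => C v ∈ DDs B (a v) ∧ b v ∈ (F.d (a v)).Qs (C v) (D v)) := by
  refine Dfn.of_iff (R := fun v => C v ∈ DDs B (a v) ∧ ∀ i ∈ (Finset.range (2 * k * K)), 1 ≤ i →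
    ∀ D' ∈ DDs B (a v), (C v ∈ DDs B (a v) ∧ D' ∈ (F.d (a v)).nodes (C v) i) → D v ⊆ D' →
      ¬ D' ∈ B.E (a v) (b v)) ?_ fun v => ?_
  · refine (dDD ha hC).and (Dfn.finsetAll _ fun i _ => ?_)
    by_cases hi : 1 ≤ i
    · refine Dfn.of_iff (R := fun v => ∀ D' ∈ DDs B (a v), (C v ∈ DDs B (a v) ∧
        D' ∈ (F.d (a v)).nodes (C v) i) → D v ⊆ D' → ¬ D' ∈ B.E (a v) (b v)) ?_ fun v => by simp [hi]
      refine allDD ha (Φ := fun v D' => (C v ∈ DDs B (a v) ∧ D' ∈ (F.d (a v)).nodes (C v) i) →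
        D v ⊆ D' → ¬ D' ∈ B.E (a v) (b v)) fun l => ?_
      exact (F.dnodes ha.lift hC.lift (isC_inr l) i).imp ((hD.lift.sub (isC_inr l)).imp
        (dE ha.lift hb.lift (isC_inr l)).not)
    · exact Dfn.true'.of_iff fun v => by simp [hi]
  · constructor
    · rintro ⟨h1, h2⟩
      refine ⟨h1, fun i hi1 hi2 D' h3 h4 h5 => ?_⟩
      rw [F.q] at hi2
      rw [F.hE] at h5
      exact h2 i (Finset.mem_range.2 hi2) hi1 D' (F.nodes_DD' (a v) h1 h3) ⟨h1, h3⟩ h4 h5
    · rintro ⟨h1, h2⟩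
      refine ⟨h1, fun i hi hi1 D' h3 h4 h5 h6 => ?_⟩
      refine h2 i hi1 (by rw [F.q]; exact Finset.mem_range.1 hi) D' h4.2 h5 ?_
      rw [F.hE]; exact h6

end Pool.Agent.VCM.Cnt
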