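import Pool.Agent.VCM.Cnt.StepB
import Pool.Agent.VCM.Cnt.Main

/-! S15495, section 6: definability of the new system. -/

open FirstOrder FirstOrder.Language

namespace Pool.Agent.VCM.Cnt

/-- restriction of a pattern -/
def rs {J : Type} (F : Finset J) (ρ : J → Prop) : F → Prop := fun j => ρ j

theorem pat_unique {J : Type} [Finite J] {k : ℕ} {ρ ρ' : Set (J → Prop)} (hk : ρ.ncard ≤ k)
    (hk' : ρ'.ncard ≤ k) (h : ∀ F : Finset J, F.card ≤ k → rs F '' ρ = rs F '' ρ') : ρ = ρ' := by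
  have key : ∀ T : Set (Set J), tr T Set.univ = T := by
    intro T
    unfold tr
    simp
  have h1 := tr_eq_of_small (P := J) (k := k) (T := ρ) (T' := ρ') (Set.toFinite _) (Set.toFinite _) hk hk'
    (B := Set.univ) (by
      intro F _ hF
      have h2 := h F hF
      have h3 := tr_range_iff (fun j : F => (j : J)) ρ ρ'
      have h4 : Set.range (fun j : F => (j : J)) = (F : Set J) := by
        ext x; simp
      rw [h4] at h3
      exact h3.2 h2)
  exact (key ρ).symm.trans (h1.trans (key ρ'))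

variable {X P : Type}

theorem om_pattern (d : Data X P) {C : Set X} (hC : C ∈ d.DD) {Q : Set P} (hQ : d.Good C Q) {n : ℕ}
    (b : Fin n → P) (η : Fin n → Prop) :
    (∃ w ∈ d.om C Q, ∀ j, (b j ∈ w ↔ η j)) ↔
      ∃ ρ : Set (Fin n → Prop), η ∈ ρ ∧ ρ.ncard ≤ d.k ∧ (∀ j, b j ∉ Q → ∀ ρ' ∈ ρ, ¬ ρ' j) ∧
        ∀ F : Finset (Fin n), F.card ≤ d.k → (∀ j ∈ F, b j ∈ Q) →
          ∀ x, x ∈ d.al (Set.range (fun j : F => b j)) C →
            rs F '' ρ = pt (d.τ x) (fun j : F => b j) := by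
  classical
  obtain ⟨h1, h2, h3⟩ := d.om_spec hC hQ
  -- properties of the patterns of `om`
  have p1 : (pt (d.om C Q) b).ncard ≤ d.k := (Set.ncard_image_le h1).trans h2
  have p2 : ∀ j, b j ∉ Q → ∀ ρ' ∈ pt (d.om C Q) b, ¬ ρ' j := by
    rintro j hj _ ⟨w, hw, rfl⟩ hcon
    exact hj (hw.1 hcon)
  have hrange : ∀ F : Finset (Fin n), Set.range (fun j : F => b j) = ((F.image b : Finset P) : Set P) := by
    intro F; ext x; simp
  have p3 : ∀ F : Finset (Fin n), F.card ≤ d.k → (∀ j ∈ F, b j ∈ Q) →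
      ∀ x, x ∈ d.al (Set.range (fun j : F => b j)) C →
        rs F '' (pt (d.om C Q) b) = pt (d.τ x) (fun j : F => b j) := by
    intro F hF hFQ x hx
    have e1 : rs F '' (pt (d.om C Q) b) = pt (d.om C Q) (fun j : F => b j) := by
      unfold pt
      rw [Set.image_image]
      rfl
    rw [e1]
    refine ((tr_range_iff (fun j : F => b j) (d.τ x) (d.om C Q)).1 ?_).symm
    rw [hrange] at hx ⊢
    refine h3 (F.image b) ?_ x hx
    intro y hy
    simp only [Finset.coe_image, Set.mem_image, Finset.mem_coe] at hy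
    obtain ⟨j, hj, rfl⟩ := hy
    exact hFQ j hj
  constructor
  · rintro ⟨w, hw, hη⟩
    refine ⟨pt (d.om C Q) b, ⟨w, hw, ?_⟩, p1, p2, p3⟩
    funext j
    exact propext (hη j)
  · rintro ⟨ρ, hη, q1, q2, q3⟩
    have e : ρ = pt (d.om C Q) b := by
      refine pat_unique q1 p1 fun F hF => ?_
      set F' := F.filter (fun j => b j ∈ Q) with hF'
      have hF'c : F'.card ≤ d.k := (Finset.card_filter_le _ _).trans hF
      have hF'Q : ∀ j ∈ F', b j ∈ Q := fun j hj => (Finset.mem_filter.1 hj).2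
      obtain ⟨x, hx⟩ := hQ (F'.image b) (by
        intro y hy
        simp only [Finset.coe_image, Set.mem_image, Finset.mem_coe] at hy
        obtain ⟨j, hj, rfl⟩ := hy
        exact hF'Q j hj) (by
        refine Finset.card_image_le.trans (hF'c.trans ?_)
        omega)
      rw [← hrange] at hx
      have e2 := (q3 F' hF'c hF'Q x hx).trans (p3 F' hF'c hF'Q x hx).symm
      have key : ∀ ρ₁ ρ₂ : Set (Fin n → Prop), (∀ j, b j ∉ Q → ∀ ρ' ∈ ρ₁, ¬ ρ' j) →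
          (∀ j, b j ∉ Q → ∀ ρ' ∈ ρ₂, ¬ ρ' j) → rs F' '' ρ₁ = rs F' '' ρ₂ → rs F '' ρ₁ ⊆ rs F '' ρ₂ := by
        rintro ρ₁ ρ₂ r1 r2 r3 _ ⟨x1, hx1, rfl⟩
        have : rs F' x1 ∈ rs F' '' ρ₂ := r3 ▸ ⟨x1, hx1, rfl⟩
        obtain ⟨x2, hx2, e3⟩ := this
        refine ⟨x2, hx2, ?_⟩
        funext j
        by_cases hj : b j ∈ Q
        · have hjF : (j : Fin n) ∈ F' := Finset.mem_filter.2 ⟨j.2, hj⟩
          exact congrFun e3 ⟨j, hjF⟩
        · have a1 := r1 j hj x1 hx1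
          have a2 := r2 j hj x2 hx2
          show x2 j = x1 j
          simp [a1, a2]
      exact Set.Subset.antisymm (key _ _ q2 p2 e2) (key _ _ p2 q2 e2.symm)
    rw [e] at hη
    obtain ⟨w, hw, rfl⟩ := hη
    exact ⟨w, hw, fun j => Iff.rfl⟩

variable {L : FirstOrder.Language.{0, 0}} {N : Type} [L.Structure N]
variable {α : Type} {p k : ℕ} {γ : Type}

theorem dpat {β : Type} (S : Sys L N β p k) {a : (γ → N) → (β → N)} (ha : IsVars a) {J : Type} [Finite J]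
    {s : (γ → N) → (J → Fin p → N)} (hs : ∀ j, IsVars (fun v => s v j)) (η : J → Prop) :
    Dfn L (fun v => ∃ w ∈ S.T (a v), ∀ j, (s v j ∈ w ↔ η j)) := by
  let e := Finite.equivFin J
  have h1 := dapp (S.dfn (Nat.card J) (fun j => η (e.symm j)))
    (t := fun v => Sum.elim (a v) (fun q : Fin (Nat.card J) × Fin p => s v (e.symm q.1) q.2))
    (ha.elim (isVars_of fun q => (hs (e.symm q.1)).app q.2))
  refine h1.of_iff fun v => ?_
  refine exists_congr fun w => and_congr_right fun _ => ?_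
  constructor
  · intro h j
    have := h (e j)
    simpa using this
  · intro h j
    have := h (e.symm j)
    simpa using this

variable [Nonempty N] {S : Sys L N (α ⊕ Unit) p k} {B : BFam L N α p} {K : ℕ} (F : Fam S B K)

/-- definability of the patterns of `om C Q`, under a guard `G` -/
theorem Fam.dom {a : (γ → N) → (α → N)} (ha : IsVars a) {C : (γ → N) → Set N} (hC : IsC B C)
    {Q : (γ → N) → Set (Fin p → N)} {G : (γ → N) → Prop} (hG : Dfn L G)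
    (hG1 : ∀ v, G v → C v ∈ DDs B (a v)) (hG2 : ∀ v, G v → (F.d (a v)).Good (C v) (Q v)) {n : ℕ}
    {b : (γ → N) → (Fin n → Fin p → N)} (hb : ∀ j, IsVars (fun v => b v j))
    (hQ : ∀ j, Dfn L (fun v => G v ∧ b v j ∈ Q v)) (η : Fin n → Prop) :
    Dfn L (fun v => G v ∧ ∃ w ∈ (F.d (a v)).om (C v) (Q v), ∀ j, (b v j ∈ w ↔ η j)) := by
  refine Dfn.of_iff (R := fun v => G v ∧ ∃ ρ : Set (Fin n → Prop), (η ∈ ρ ∧ ρ.ncard ≤ k) ∧
      (∀ j, ¬ (G v ∧ b v j ∈ Q v) → ∀ ρ' ∈ ρ, ¬ ρ' j) ∧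
        ∀ F' : Finset (Fin n), F'.card ≤ k → (∀ j ∈ F', (G v ∧ b v j ∈ Q v)) →
          ∀ x : N, x ∈ (F.d (a v)).al (Set.range (fun j : F' => b v j)) (C v) →
            ∀ η' : F' → Prop, (η' ∈ rs F' '' ρ ↔ ∃ w ∈ S.T (ext (a v) x), ∀ j : F', (b v j ∈ w ↔ η' j)))
    ?_ fun v => ?_
  · refine hG.and (Dfn.finiteEx fun ρ => (Dfn.const _).and (Dfn.and ?_ ?_))
    · refine Dfn.finiteAll fun j => (hQ j).not.imp (Dfn.const _)
    · refine Dfn.finiteAll fun F' => (Dfn.const _).imp ((Dfn.finsetAll F' fun j _ => hQ j).imp ?_)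
      refine Dfn.all1 (R := fun (v : γ → N) (x : N) =>
        x ∈ (F.d (a v)).al (Set.range (fun j : F' => b v j)) (C v) →
            ∀ η' : F' → Prop, (η' ∈ rs F' '' ρ ↔ ∃ w ∈ S.T (ext (a v) x), ∀ j : F', (b v j ∈ w ↔ η' j))) ?_
      refine Dfn.imp ?_ ?_
      · exact F.dal ha.lift (s := fun u (j : F') => b (u ∘ Sum.inl) j) (fun j => (hb j).lift)
          (isVar_inr ()) hC.lift
      · refine Dfn.finiteAll fun η' => (Dfn.const _).iff ?_
        exact dpat S (ha.lift.ext (isVar_inr ())) (s := fun u (j : F') => b (u ∘ Sum.inl) j)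
          (fun j => (hb j).lift) η'
  · refine and_congr_right fun hGv => ?_
    have hCv : C v ∈ (F.d (a v)).DD := by rw [F.DD]; exact hG1 v hGv
    rw [om_pattern (F.d (a v)) hCv (hG2 v hGv) (b v) η]
    refine exists_congr fun ρ => ?_
    rw [F.hk, and_assoc]
    refine and_congr_right fun _ => and_congr_right fun _ => ?_
    refine and_congr (forall_congr' fun j => by simp [hGv]) ?_
    refine forall_congr' fun F' => imp_congr_right fun _ => ?_
    refine imp_congr (forall_congr' fun j => by simp [hGv]) ?_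
    refine forall_congr' fun x => imp_congr_right fun _ => ?_
    rw [Set.ext_iff, F.hτ]
    refine forall_congr' fun η' => iff_congr Iff.rfl ?_
    constructor
    · rintro ⟨w, hw, h⟩
      exact ⟨w, hw, funext fun j => propext (h j)⟩
    · rintro ⟨w, hw, rfl⟩
      exact ⟨w, hw, fun j => Iff.rfl⟩

/-- definability of the patterns of `T'` -/
theorem Fam.dT' (n : ℕ) (η : Fin n → Prop) :
    Dfn L (fun v : (α ⊕ Fin p) ⊕ (Fin n × Fin p) → N =>
      ∃ w ∈ (F.d (fun i => v (Sum.inl (Sum.inl i)))).T' (fun i => v (Sum.inl (Sum.inr i))),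
        ∀ j, ((fun i => v (Sum.inr (j, i))) ∈ w ↔ η j)) := by
  let γ₀ := (α ⊕ Fin p) ⊕ (Fin n × Fin p)
  let a : (γ₀ → N) → (α → N) := fun v i => v (Sum.inl (Sum.inl i))
  let b₀ : (γ₀ → N) → (Fin p → N) := fun v i => v (Sum.inl (Sum.inr i))
  let b : (γ₀ → N) → (Fin n → Fin p → N) := fun v j i => v (Sum.inr (j, i))
  have ha : IsVars a := ⟨fun i => Sum.inl (Sum.inl i), fun _ _ => rfl⟩
  have hb₀ : IsVars b₀ := ⟨fun i => Sum.inl (Sum.inr i), fun _ _ => rfl⟩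
  have hb : ∀ j, IsVars (fun v => b v j) := fun j => ⟨fun i => Sum.inr (j, i), fun _ _ => rfl⟩
  refine Dfn.of_iff (R := fun v => (∀ j, ¬ η j) ∨ ∃ C ∈ B.E (a v) (b₀ v),
    (∃ i ∈ Finset.range (2 * k * K), ∃ D ∈ DDs B (a v),
      (C ∈ DDs B (a v) ∧ D ∈ (F.d (a v)).nodes C i) ∧
      ((D ∈ DDs B (a v) ∧ (F.d (a v)).Thick D) ∧ ∃ w ∈ (F.d (a v)).om D Set.univ, ∀ j, (b v j ∈ w ↔ η j))) ∨
    (∃ D ∈ DDs B (a v), ((C ∈ DDs B (a v) ∧ D ∈ (F.d (a v)).nodes C (2 * k * K)) ∧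
      ∃ w ∈ (F.d (a v)).om C ((F.d (a v)).Qs C D), ∀ j, (b v j ∈ w ↔ η j)))) ?_ fun v => ?_
  · refine (Dfn.const _).or (exE ha hb₀ (Φ := fun v C =>
      (∃ i ∈ Finset.range (2 * k * K), ∃ D ∈ DDs B (a v),
      (C ∈ DDs B (a v) ∧ D ∈ (F.d (a v)).nodes C i) ∧
      ((D ∈ DDs B (a v) ∧ (F.d (a v)).Thick D) ∧ ∃ w ∈ (F.d (a v)).om D Set.univ, ∀ j, (b v j ∈ w ↔ η j))) ∨
    (∃ D ∈ DDs B (a v), ((C ∈ DDs B (a v) ∧ D ∈ (F.d (a v)).nodes C (2 * k * K)) ∧
      ∃ w ∈ (F.d (a v)).om C ((F.d (a v)).Qs C D), ∀ j, (b v j ∈ w ↔ η j)))) fun l => ?_)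
    refine Dfn.or (Dfn.finsetEx _ fun i _ => ?_) ?_
    · refine exDD ha.lift (Φ := fun (u : γ₀ ⊕ ℕ → N) D =>
        (fib (B.δ l) (u ∘ Sum.inr) ∈ DDs B (a (u ∘ Sum.inl)) ∧
          D ∈ (F.d (a (u ∘ Sum.inl))).nodes (fib (B.δ l) (u ∘ Sum.inr)) i) ∧
        ((D ∈ DDs B (a (u ∘ Sum.inl)) ∧ (F.d (a (u ∘ Sum.inl))).Thick D) ∧
          ∃ w ∈ (F.d (a (u ∘ Sum.inl))).om D Set.univ, ∀ j, (b (u ∘ Sum.inl) j ∈ w ↔ η j))) fun l' => ?_
      refine (F.dnodes ha.lift.lift (isC_inr l).lift (isC_inr l') i).and ?_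
      refine F.dom ha.lift.lift (isC_inr l') (Q := fun _ => Set.univ)
        ((dDD ha.lift.lift (isC_inr l')).and (F.dThick ha.lift.lift (isC_inr l')))
        (fun v hv => hv.1) (fun v hv S _ hS => hv.2 S hS)
        (b := fun u j => b (u ∘ Sum.inl ∘ Sum.inl) j) (fun j => (hb j).lift.lift) (fun j => ?_) η
      refine (((dDD ha.lift.lift (isC_inr l')).and (F.dThick ha.lift.lift (isC_inr l')))).of_iff fun v => ?_
      simp
    · refine exDD ha.lift (Φ := fun (u : γ₀ ⊕ ℕ → N) D =>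
        ((fib (B.δ l) (u ∘ Sum.inr) ∈ DDs B (a (u ∘ Sum.inl)) ∧
          D ∈ (F.d (a (u ∘ Sum.inl))).nodes (fib (B.δ l) (u ∘ Sum.inr)) (2 * k * K)) ∧
          ∃ w ∈ (F.d (a (u ∘ Sum.inl))).om (fib (B.δ l) (u ∘ Sum.inr))
            ((F.d (a (u ∘ Sum.inl))).Qs (fib (B.δ l) (u ∘ Sum.inr)) D),
            ∀ j, (b (u ∘ Sum.inl) j ∈ w ↔ η j))) fun l' => ?_
      have hn := F.dnodes ha.lift.lift (isC_inr l).lift (isC_inr l') (2 * k * K)
      refine F.dom ha.lift.lift (isC_inr l).lift hn (fun v hv => hv.1) (fun v hv => ?_)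
        (b := fun u j => b (u ∘ Sum.inl ∘ Sum.inl) j) (fun j => (hb j).lift.lift) (fun j => ?_) η
      · refine Data.good_Qs ?_ ?_
        · rw [F.DD]; exact hv.1
        · rw [F.q]; exact hv.2
      · have h2 := F.dQs ha.lift.lift (hb j).lift.lift (isC_inr l).lift (isC_inr l')
        refine (hn.and h2).of_iff fun v => ?_
        constructor
        · rintro ⟨h3, h4⟩
          exact ⟨h3, h4.2⟩
        · rintro ⟨h3, h4⟩
          exact ⟨h3, h3.1, h4⟩
  · constructor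
    · rintro (h | ⟨C, hC, h⟩)
      · exact ⟨∅, Or.inl rfl, fun j => by simp [h j]⟩
      · rw [← F.hE] at hC
        rcases h with ⟨i, hi, D, -, ⟨-, h1⟩, ⟨-, h2⟩, w, hw, h3⟩ | ⟨D, -, ⟨-, h1⟩, w, hw, h3⟩
        · refine ⟨w, Or.inr ⟨C, hC, Or.inl ⟨i, ?_, D, h1, h2, hw⟩⟩, h3⟩
          rw [F.q]; exact Finset.mem_range.1 hi
        · refine ⟨w, Or.inr ⟨C, hC, Or.inr ⟨D, ?_, hw⟩⟩, h3⟩
          rw [F.q]; exact h1
    · rintro ⟨w, (rfl | ⟨C, hC, h⟩), hη⟩
      · exact Or.inl fun j => by simpa using hη j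
      · refine Or.inr ⟨C, ?_, ?_⟩
        · rw [← F.hE]; exact hC
        have hCD : C ∈ DDs B (a v) := by
          rw [F.hE] at hC
          exact ⟨_, hC⟩
        rcases h with ⟨i, hi, D, h1, h2, hw⟩ | ⟨D, h1, hw⟩
        · have hDD : D ∈ DDs B (a v) := F.nodes_DD' (a v) hCD h1
          refine Or.inl ⟨i, ?_, D, hDD, ⟨hCD, h1⟩, ⟨hDD, h2⟩, w, hw, hη⟩
          rw [F.q] at hi; exact Finset.mem_range.2 hi
        · have hDD : D ∈ DDs B (a v) := F.nodes_DD' (a v) hCD h1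
          rw [F.q] at h1
          exact Or.inr ⟨D, hDD, ⟨hCD, h1⟩, w, hw, hη⟩

end Pool.Agent.VCM.Cnt
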